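import Mathlib
import Pool.Agent.H129R2.CornerCert

/-!
Corner-free sets in `(F_2^n)^2` from combinatorial degenerations.
-/

set_option autoImplicit false

namespace Pool.Agent.H129R2.Corner

open Finset

/-- A set of pairs contains no nontrivial corner `(x,y), (x,y+z), (x+z,y)`. -/
def CF {G : Type*} [AddCommGroup G] (A : Finset (G × G)) : Prop :=
  ∀ x y z : G, (x, y) ∈ A → (x, y + z) ∈ A → (x + z, y) ∈ A → z = 0

theorem power_corner {G : Type*} [AddCommGroup G] [Fintype G] [DecidableEq G]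
    (Φ : Finset (G × G)) (f1 f2 f3 : G × G → ℤ) (B : ℕ)
    (h0 : ∀ p ∈ Φ, f1 p + f2 p + f3 p = 0)
    (h1 : ∀ x y z : G, z ≠ 0 → (x, y) ∈ Φ → (x, y + z) ∈ Φ → (x + z, y) ∈ Φ →
      0 < f1 (x, y) + f2 (x, y + z) + f3 (x + z, y))
    (hB1 : ∀ p ∈ Φ, |f1 p| ≤ B) (hB2 : ∀ p ∈ Φ, |f2 p| ≤ B) (m : ℕ) :
    ∃ A : Finset ((Fin m → G) × (Fin m → G)), CF A ∧
      Φ.card ^ m ≤ (2 * (m * B) + 1) ^ 2 * A.card := by
  classical
  let P : Finset ((Fin m → G) × (Fin m → G)) :=
    Finset.univ.filter (fun p => ∀ i, (p.1 i, p.2 i) ∈ Φ)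
  have hPcard : P.card = Φ.card ^ m := by
    have h2 : (Fintype.piFinset (fun _ : Fin m => Φ)).card = Φ.card ^ m := by
      simp
    rw [← h2]
    refine Finset.card_bij (fun p _ => fun i => (p.1 i, p.2 i)) ?_ ?_ ?_
    · intro p hp
      simpa [P] using hp
    · intro p _ q _ h
      have h' : ∀ i, (p.1 i, p.2 i) = (q.1 i, q.2 i) := fun i => congrFun h i
      ext i
      · exact (Prod.ext_iff.mp (h' i)).1
      · exact (Prod.ext_iff.mp (h' i)).2
    · intro f hf
      refine ⟨(fun i => (f i).1, fun i => (f i).2), ?_, ?_⟩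
      · simpa [P] using hf
      · funext i
        rfl
  let κ : (Fin m → G) × (Fin m → G) → ℤ × ℤ :=
    fun p => (∑ i, f1 (p.1 i, p.2 i), ∑ i, f2 (p.1 i, p.2 i))
  let T : Finset (ℤ × ℤ) := Finset.Icc (-((m * B : ℕ) : ℤ)) ((m * B : ℕ) : ℤ) ×ˢ
    Finset.Icc (-((m * B : ℕ) : ℤ)) ((m * B : ℕ) : ℤ)
  have hTcard : T.card = (2 * (m * B) + 1) ^ 2 := by
    simp only [T, Finset.card_product, Int.card_Icc]
    have : (((m * B : ℕ) : ℤ) + 1 - -((m * B : ℕ) : ℤ)).toNat = 2 * (m * B) + 1 := by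
      omega
    rw [this]
    ring
  have hsum : ∀ (f : G × G → ℤ), (∀ p ∈ Φ, |f p| ≤ B) → ∀ p ∈ P,
      |∑ i, f (p.1 i, p.2 i)| ≤ ((m * B : ℕ) : ℤ) := by
    intro f hf p hp
    have hp' : ∀ i, (p.1 i, p.2 i) ∈ Φ := by simpa [P] using hp
    calc |∑ i, f (p.1 i, p.2 i)| ≤ ∑ i : Fin m, |f (p.1 i, p.2 i)| :=
          Finset.abs_sum_le_sum_abs _ _
      _ ≤ ∑ _i : Fin m, (B : ℤ) := Finset.sum_le_sum (fun i _ => hf _ (hp' i))
      _ = ((m * B : ℕ) : ℤ) := by simp
  have hmaps : ∀ p ∈ P, κ p ∈ T := by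
    intro p hp
    have a1 := abs_le.mp (hsum f1 hB1 p hp)
    have a2 := abs_le.mp (hsum f2 hB2 p hp)
    simp only [T, κ, Finset.mem_product, Finset.mem_Icc]
    exact ⟨a1, a2⟩
  have hTne : T.Nonempty := by
    rw [← Finset.card_pos, hTcard]
    positivity
  obtain ⟨t, ht, hmax⟩ := Finset.exists_max_image T (fun t => (P.filter (fun p => κ p = t)).card) hTne
  refine ⟨P.filter (fun p => κ p = t), ?_, ?_⟩
  · intro x y z hxy hxyz hxzy
    rw [Finset.mem_filter] at hxy hxyz hxzy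
    obtain ⟨p1, k1⟩ := hxy
    obtain ⟨p2, k2⟩ := hxyz
    obtain ⟨p3, k3⟩ := hxzy
    have q1 : ∀ i, (x i, y i) ∈ Φ := by simpa [P] using p1
    have q2 : ∀ i, (x i, y i + z i) ∈ Φ := by simpa [P] using p2
    have q3 : ∀ i, (x i + z i, y i) ∈ Φ := by simpa [P] using p3
    by_contra hz
    have hz' : ∃ i, z i ≠ 0 := by
      by_contra hcon
      push Not at hcon
      exact hz (funext hcon)
    obtain ⟨i0, hi0⟩ := hz'
    have e1 : ∑ i, f1 (x i, y i) = t.1 := congrArg Prod.fst k1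
    have e2 : ∑ i, f2 (x i, y i + z i) = t.2 := congrArg Prod.snd k2
    have e3a : ∑ i, f1 (x i + z i, y i) = t.1 := congrArg Prod.fst k3
    have e3b : ∑ i, f2 (x i + z i, y i) = t.2 := congrArg Prod.snd k3
    have e3 : ∑ i, f3 (x i + z i, y i) = - t.1 - t.2 := by
      rw [← e3a, ← e3b, ← Finset.sum_neg_distrib, ← Finset.sum_sub_distrib]
      refine Finset.sum_congr rfl (fun i _ => ?_)
      have := h0 _ (q3 i)
      linarith
    have hzero : ∑ i, (f1 (x i, y i) + f2 (x i, y i + z i) + f3 (x i + z i, y i)) = 0 := by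
      rw [Finset.sum_add_distrib, Finset.sum_add_distrib, e1, e2, e3]
      ring
    have hpos : 0 < ∑ i, (f1 (x i, y i) + f2 (x i, y i + z i) + f3 (x i + z i, y i)) := by
      refine Finset.sum_pos' (fun i _ => ?_) ⟨i0, Finset.mem_univ _, ?_⟩
      · by_cases hzi : z i = 0
        · have := h0 _ (q1 i)
          simp only [hzi, add_zero]
          linarith
        · exact (h1 _ _ _ hzi (q1 i) (q2 i) (q3 i)).le
      · exact h1 _ _ _ hi0 (q1 i0) (q2 i0) (q3 i0)
    omega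
  · rw [← hPcard, ← hTcard]
    calc P.card = ∑ s ∈ T, (P.filter (fun p => κ p = s)).card :=
          Finset.card_eq_sum_card_fiberwise (fun p hp => hmaps p hp)
      _ ≤ ∑ _s ∈ T, (P.filter (fun p => κ p = t)).card :=
          Finset.sum_le_sum (fun s hs => hmax s hs)
      _ = T.card * (P.filter (fun p => κ p = t)).card := by
          rw [Finset.sum_const, smul_eq_mul]

/-- An injective additive map sends corner-free sets to corner-free sets. -/
theorem CF.map {G H : Type*} [AddCommGroup G] [AddCommGroup H] [DecidableEq G] [DecidableEq H]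
    (φ : G →+ H) (hφ : Function.Injective φ) {A : Finset (G × G)} (hA : CF A) :
    CF (A.map ⟨Prod.map φ φ, hφ.prodMap hφ⟩) := by
  intro x y z h1 h2 h3
  rw [Finset.mem_map] at h1 h2 h3
  obtain ⟨⟨a, b⟩, m1, e1⟩ := h1
  obtain ⟨⟨a', c⟩, m2, e2⟩ := h2
  obtain ⟨⟨d, b'⟩, m3, e3⟩ := h3
  simp only [Function.Embedding.coeFn_mk, Prod.map_apply, Prod.mk.injEq] at e1 e2 e3
  obtain ⟨xa, yb⟩ := e1
  obtain ⟨xa', yc⟩ := e2
  obtain ⟨xd, yb'⟩ := e3
  have haa : a' = a := hφ (xa'.trans xa.symm)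
  have hbb : b' = b := hφ (yb'.trans yb.symm)
  have hz : z = φ (c - b) := by
    rw [map_sub, yc, yb]
    abel
  have hc : b + (c - b) = c := by abel
  have hd : d = a + (c - b) := by
    apply hφ
    rw [map_add, xd, xa, hz]
  subst haa hbb
  have := hA a' b' (c - b') m1 (by rw [hc]; exact m2) (by rw [← hd]; exact m3)
  rw [hz, this, map_zero]

/-! ### the group `F_2^4` -/

abbrev G4 := Fin 4 → ZMod 2

/-- the number with binary digits `v` -/
def enc (v : G4) : ℕ := (v 0).val + 2 * (v 1).val + 4 * (v 2).val + 8 * (v 3).val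

theorem enc_lt : ∀ v : G4, enc v < 16 := by decide +kernel

theorem enc_add : ∀ u v : G4, enc (u + v) = Nat.xor (enc u) (enc v) := by decide +kernel

theorem enc_ne : ∀ v : G4, v ≠ 0 → enc v ≠ 0 := by decide +kernel

/-- the set of 136 points -/
def Phi : Finset (G4 × G4) := Finset.univ.filter (fun p => inPhi (enc p.1) (enc p.2) = true)

theorem Phi_card : Phi.card = 136 := by decide +kernel

def w1 (p : G4 × G4) : ℤ := (look tabA (enc p.1) (enc p.2) : ℤ) - 8192
def w2 (p : G4 × G4) : ℤ := (look tabB (enc p.1) (enc p.2) : ℤ) - 8192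
def w3 (p : G4 × G4) : ℤ := (look tabC (enc p.1) (enc p.2) : ℤ) - 8192

theorem mem_Phi (p : G4 × G4) : p ∈ Phi ↔ inPhi (enc p.1) (enc p.2) = true := by
  simp [Phi]

theorem exists_corner_free_four (m : ℕ) :
    ∃ A : Finset ((Fin m → G4) × (Fin m → G4)), CF A ∧
      136 ^ m ≤ (2 * (m * 8000) + 1) ^ 2 * A.card := by
  have h := power_corner Phi w1 w2 w3 8000 ?_ ?_ ?_ ?_ m
  · rw [Phi_card] at h
    exact h
  · intro p hp
    rw [mem_Phi] at hp
    obtain ⟨h, -⟩ := diag_nat (enc_lt p.1) (enc_lt p.2) hp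
    unfold w1 w2 w3
    omega
  · intro x y z hz h1 h2 h3
    rw [mem_Phi] at h1 h2 h3
    simp only [enc_add] at h2 h3
    have h := corner_nat (enc_lt x) (enc_lt y) (enc_lt z) (enc_ne z hz) h1 h2 h3
    unfold w1 w2 w3
    simp only [enc_add]
    omega
  · intro p hp
    rw [mem_Phi] at hp
    obtain ⟨-, h1, h2, -, -⟩ := diag_nat (enc_lt p.1) (enc_lt p.2) hp
    unfold w1
    rw [abs_le]
    constructor <;> push_cast <;> omega
  · intro p hp
    rw [mem_Phi] at hp
    obtain ⟨-, -, -, h1, h2⟩ := diag_nat (enc_lt p.1) (enc_lt p.2) hp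
    unfold w2
    rw [abs_le]
    constructor <;> push_cast <;> omega

/-- blocks of four coordinates, padded with zeros -/
def pad (m n : ℕ) : (Fin m → G4) →+ (Fin n → ZMod 2) where
  toFun u := fun i => if h : (i : ℕ) < m * 4 then
    u ⟨(i : ℕ) / 4, by omega⟩ ⟨(i : ℕ) % 4, Nat.mod_lt _ (by norm_num)⟩ else 0
  map_zero' := by
    funext i
    by_cases h : (i : ℕ) < m * 4 <;> simp [h]
  map_add' u v := by
    funext i
    by_cases h : (i : ℕ) < m * 4 <;> simp [h]

theorem pad_injective {m n : ℕ} (h : m * 4 ≤ n) : Function.Injective (pad m n) := by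
  intro u v huv
  funext a b
  have hi : (a : ℕ) * 4 + b < m * 4 := by
    have := a.2
    have := b.2
    omega
  have := congrFun huv ⟨(a : ℕ) * 4 + b, lt_of_lt_of_le hi h⟩
  simp only [pad, AddMonoidHom.coe_mk, ZeroHom.coe_mk, hi, dif_pos] at this
  have ea : (⟨((a : ℕ) * 4 + b) / 4, by omega⟩ : Fin m) = a := by
    apply Fin.ext
    have := b.2
    simp only
    omega
  have eb : (⟨((a : ℕ) * 4 + b) % 4, Nat.mod_lt _ (by norm_num)⟩ : Fin 4) = b := by
    apply Fin.ext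
    have := b.2
    simp only
    omega
  rw [ea, eb] at this
  exact this

theorem exists_corner_free (n : ℕ) :
    ∃ A : Finset ((Fin n → ZMod 2) × (Fin n → ZMod 2)), CF A ∧
      136 ^ (n / 4) ≤ (2 * (n / 4 * 8000) + 1) ^ 2 * A.card := by
  obtain ⟨A, hA, hc⟩ := exists_corner_free_four (n / 4)
  have hle : n / 4 * 4 ≤ n := by omega
  refine ⟨A.map ⟨Prod.map (pad (n / 4) n) (pad (n / 4) n),
    (pad_injective hle).prodMap (pad_injective hle)⟩, CF.map _ (pad_injective hle) hA, ?_⟩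
  rw [Finset.card_map]
  exact hc

end Pool.Agent.H129R2.Corner
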