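import Pool.Agent.H129R2.FZ_VSTa

/-! Task VST of MP_118406_an: the element `v` of a Rørdam–Winter system. -/

set_option autoImplicit false
set_option linter.style.haveILetI false

open scoped ComplexConjugate Polynomial

noncomputable section

namespace Pool.Agent.H923R2.FZ.T_VST

open Pool.Agent.H923R2.FP

theorem norm_unit_le {B : Type*} [CStarAlgebra B] (w : B) (hw : w ∈ unitary B) : ‖w‖ ≤ 1 := by
  rcases subsingleton_or_nontrivial B with hB | hB
  · rw [Subsingleton.elim w 0, norm_zero]; exact zero_le_one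
  · exact (CStarRing.norm_of_mem_unitary hw).le

theorem norm_one_le' {B : Type*} [CStarAlgebra B] : ‖(1:B)‖ ≤ 1 :=
  norm_unit_le 1 (one_mem _)

theorem nb {B : Type*} [CStarAlgebra B] {a b : B} {c : ℝ} (ha : ‖a‖ ≤ 1) (hb : ‖b‖ ≤ c) :
    ‖a * b‖ ≤ c := by
  refine (norm_mul_le _ _).trans ((mul_le_mul ha hb (norm_nonneg _) zero_le_one).trans ?_)
  rw [one_mul]

theorem nb' {B : Type*} [CStarAlgebra B] {a b : B} {c : ℝ} (ha : ‖a‖ ≤ c) (hb : ‖b‖ ≤ 1) :
    ‖a * b‖ ≤ c := by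
  refine (norm_mul_le _ _).trans ((mul_le_mul ha hb (norm_nonneg _)
    ((norm_nonneg _).trans ha)).trans ?_)
  rw [mul_one]

theorem nbb {B : Type*} [CStarAlgebra B] {a b : B} {c d : ℝ} (ha : ‖a‖ ≤ c) (hb : ‖b‖ ≤ d) :
    ‖a * b‖ ≤ c * d :=
  (norm_mul_le _ _).trans (mul_le_mul ha hb (norm_nonneg _) ((norm_nonneg _).trans ha))

theorem pc_norm {B : Type} [CStarAlgebra B] {x : B} (h : PC x) : ‖x‖ ≤ 1 := by
  have := h.1
  rw [← cfc_id' ℝ x]
  exact norm_cfc_Icc x h.2 _ 1 zero_le_one fun t ht => by rw [abs_of_nonneg ht.1]; exact ht.2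

theorem pc_one_sub_norm {B : Type} [CStarAlgebra B] {x : B} (h : PC x) : ‖1 - x‖ ≤ 1 := by
  have := h.1
  have e : 1 - x = cfc (fun t : ℝ => 1 - t) x := by
    rw [cfc_sub (R := ℝ) _ _ x (by fun_prop) (by fun_prop), cfc_const_one ℝ x, cfc_id' ℝ x]
  rw [e]
  exact norm_cfc_Icc x h.2 _ 1 zero_le_one fun t ht => by
    rw [abs_of_nonneg (by linarith [ht.2])]; linarith [ht.1]

theorem rws_rel {B : Type} [CStarAlgebra B] {n : ℕ} {φ : Fin (n + 1) → Fin (n + 1) → B} {v : B}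
    (h : RWS n φ v) : Rel φ (∑ m, φ m m) where
  st := h.st
  mu := h.mul
  cm i j := by
    rw [Finset.sum_mul, Finset.mul_sum, Finset.sum_eq_single i, Finset.sum_eq_single j]
    · rw [h.mul, h.mul, if_pos rfl, if_pos rfl]
    · intro b _ hb; rw [h.mul, if_neg (Ne.symm hb)]
    · intro hb; exact absurd (Finset.mem_univ j) hb
    · intro b _ hb; rw [h.mul, if_neg hb]
    · intro hb; exact absurd (Finset.mem_univ i) hb
  tn := pc_norm h.pc

theorem quant (B : Type) [CStarAlgebra B] (hP : PEDH B) (n : ℕ)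
    (φ : Fin (n + 1) → Fin (n + 1) → B) (v : B) (hR : RWS n φ v) (th s e D δ : ℝ) (hth : 0 < th)
    (hth2 : th ≤ 1/2) (hs : 0 < s) (he : 0 < e) (hD : 0 < D) (hδ : 0 < δ) (hD1 : D ≤ 1)
    (hδ2 : 17 * δ ≤ th * D) (v0 : B) (h1 : ‖star v0 * v0 - star v * v‖ ≤ δ)
    (h2 : ‖φ 0 0 * v0 - v0‖ ≤ δ) :
    ∃ u : unitary B, (∀ i j, ‖(u : B) * φ i j * star (u : B) - φ i j‖ ≤ 4 * th) ∧
      ‖(u : B) * v * star (u : B) - v0‖ ≤ Real.sqrt (4 * (n + 1) * th) +
        ((2 * Real.sqrt e + Real.sqrt D) / s + Real.sqrt s + Real.sqrt (s + D)) + D := by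
  have hrel := rws_rel hR
  obtain ⟨h, hh⟩ : ∃ h : B, h = ∑ m, φ m m := ⟨_, rfl⟩
  have hpc : PC h := hh ▸ hR.pc
  have hvv : star v * v = 1 - h := hh ▸ hR.vv
  rw [← hh] at hrel
  obtain ⟨K, M, Dd, hKc, hDc, hKsa, hK1, hhK, hM, hM2, hDn, hKR, hRn, hKv⟩ :=
    cut_K h hpc.1 hpc.2 th hth hth2
  obtain ⟨E, hE, hC1, hCsa, hCs⟩ := cut_E h hpc.1 hpc.2 s hs
  -- commutation
  have cKφ : ∀ i j, K * φ i j = φ i j * K := fun i j => (hKc (φ i j) (hrel.cm i j)).eq
  have cDφ : ∀ i j, Dd * φ i j = φ i j * Dd := fun i j => (hDc (φ i j) (hrel.cm i j)).eq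
  have cKh : K * h = h * K := (hKc h (Commute.refl h)).eq
  -- `v`
  have hv0 : φ 0 0 * v = v := hR.ve
  have hhv : h * v = v := by
    have : φ 0 0 * (φ 0 0 * v) = v := by rw [hv0, hv0]
    rw [← mul_assoc, hrel.mu_self, mul_assoc, hv0] at this
    exact this
  have hKv' := hKv v hhv
  have hvn : ‖v‖ ≤ 1 := by
    have : ‖v‖ * ‖v‖ ≤ 1 := by
      rw [← CStarRing.norm_star_mul_self, hvv]; exact pc_one_sub_norm hpc
    nlinarith [norm_nonneg v]
  -- the cut system
  obtain ⟨pt, hpt⟩ : ∃ pt : Fin (n+1) → Fin (n+1) → B, pt = fun i j => φ i j * K := ⟨_, rfl⟩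
  have hpt' : ∀ i j, pt i j = φ i j * K := fun i j => by rw [hpt]
  have hrelp : Rel pt (h * K) := by
    refine ⟨?_, ?_, ?_, hhK⟩
    · intro i j
      rw [hpt', hpt', star_mul, hKsa.star_eq, hR.st, cKφ]
    · intro i j k l
      rw [hpt', hpt', hpt']
      have : φ i j * K * (φ k l * K) = (φ i j * φ k l) * K * K := by
        rw [mul_assoc (φ i j) K, ← mul_assoc K, cKφ]; simp only [mul_assoc]
      rw [this, hrel.mu]
      split_ifs
      · have e1 : h * K * (φ i l * K) = h * (K * φ i l) * K := by simp only [mul_assoc]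
        rw [e1, cKφ]; simp only [mul_assoc]
      · simp
    · intro i j
      rw [hpt']
      have e1 : h * K * (φ i j * K) = h * (K * φ i j) * K := by simp only [mul_assoc]
      have e2 : φ i j * K * (h * K) = φ i j * (K * h) * K := by simp only [mul_assoc]
      rw [e1, e2, cKφ, cKh, ← mul_assoc, ← mul_assoc, hrel.cm]
  have hptv : pt 0 0 * v = v := by rw [hpt', mul_assoc, hKv', hv0]
  -- `R` and `v0'`
  obtain ⟨R, hRdef⟩ : ∃ R : B, R = 1 - Dd * (1 - h) := ⟨_, rfl⟩
  rw [← hRdef] at hKR hRn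
  have cRφ : ∀ i j, R * φ i j = φ i j * R := by
    intro i j
    have : Dd * (1 - h) * φ i j = φ i j * (Dd * (1 - h)) := by
      rw [mul_assoc, sub_mul, one_mul, hrel.cm, ← mul_one_sub, ← mul_assoc, cDφ, mul_assoc]
    rw [hRdef, sub_mul 1 (Dd * (1 - h)), mul_sub _ 1 (Dd * (1 - h)), this, one_mul, mul_one]
  obtain ⟨v1, hv1⟩ : ∃ v1 : B, v1 = R * (φ 0 0 * v0) := ⟨_, rfl⟩
  have hptv1 : pt 0 0 * v1 = v1 := by
    have e1 : pt 0 0 * v1 = (h * K * R) * (φ 0 0 * v0) := by
      have e2 : h * K * R * (φ 0 0 * v0) = K * (h * (R * φ 0 0)) * v0 := by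
        rw [← cKh]; simp only [mul_assoc]
      rw [e2, cRφ, hpt', hv1, ← cKφ]
      have e3 : K * φ 0 0 * (R * (φ 0 0 * v0)) = K * (φ 0 0 * (R * φ 0 0)) * v0 := by
        simp only [mul_assoc]
      rw [e3, cRφ, ← mul_assoc (φ 0 0), hrel.mu_self, mul_assoc h]
    rw [e1, hKR, hv1]
  have hδ3 : 4 * δ / th ≤ D := by
    rw [div_le_iff₀ hth]; nlinarith
  have hδ1 : δ ≤ 1 := by nlinarith
  have hv0n : ‖v0‖ ≤ 2 := by
    have : ‖v0‖ * ‖v0‖ ≤ 2 := by
      rw [← CStarRing.norm_star_mul_self]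
      have e1 : star v0 * v0 = (star v0 * v0 - star v * v) + (1 - h) := by rw [hvv]; abel
      rw [e1]
      refine (norm_add_le _ _).trans ?_
      have := pc_one_sub_norm hpc
      linarith
    nlinarith [norm_nonneg v0]
  have hφn := hrel.norm_le 0 0
  have hhn := pc_norm hpc
  have h1hv0 : ‖(1 - h) * v0‖ ≤ 3 * δ := by
    have e1 : (1 - h) * v0 = -(φ 0 0 * v0 - v0) - φ 0 0 * (φ 0 0 * v0 - v0)
        + h * (φ 0 0 * v0 - v0) := by
      have e2 : φ 0 0 * (φ 0 0 * v0 - v0) = h * (φ 0 0 * v0) - φ 0 0 * v0 := by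
        rw [mul_sub, ← mul_assoc, hrel.mu_self, mul_assoc]
      rw [e2, mul_sub, sub_mul, one_mul]; abel
    rw [e1]
    have t1 : ‖φ 0 0 * (φ 0 0 * v0 - v0)‖ ≤ δ := nb hφn h2
    have t2 : ‖h * (φ 0 0 * v0 - v0)‖ ≤ δ := nb hhn h2
    refine (norm_add_le _ _).trans ?_
    have t3 := norm_sub_le (-(φ 0 0 * v0 - v0)) (φ 0 0 * (φ 0 0 * v0 - v0))
    rw [norm_neg] at t3
    linarith
  have heta : ‖v1 - v0‖ ≤ 4 * δ / th := by
    have e1 : v1 - v0 = R * (φ 0 0 * v0 - v0) - Dd * ((1 - h) * v0) := by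
      rw [hv1, mul_sub]
      have : R * v0 = v0 - Dd * ((1 - h) * v0) := by
        rw [hRdef, sub_mul, one_mul, mul_assoc]
      rw [this]; abel
    rw [e1]
    refine (norm_sub_le _ _).trans ?_
    have t1 : ‖R * (φ 0 0 * v0 - v0)‖ ≤ δ := nb hRn h2
    have t2 : ‖Dd * ((1 - h) * v0)‖ ≤ 3 * δ / th :=
      (nbb hDn h1hv0).trans (le_of_eq (by ring))
    have t3 : δ ≤ δ / th := by rw [le_div_iff₀ hth]; nlinarith
    have t4 : 4 * δ / th = δ / th + 3 * δ / th := by ring
    linarith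
  have hv1n : ‖v1‖ ≤ 2 := by
    rw [hv1]
    exact nb hRn (nb hφn hv0n)
  have hd1 : ‖star v1 * v1 - star v * v‖ ≤ D := by
    have e1 : star v1 * v1 - star v * v = star v1 * (v1 - v0) + star (v1 - v0) * v0 +
        (star v0 * v0 - star v * v) := by
      rw [star_sub]; noncomm_ring
    rw [e1]
    refine (norm_add_le _ _).trans ?_
    have t0 := norm_add_le (star v1 * (v1 - v0)) (star (v1 - v0) * v0)
    have t1 : ‖star v1 * (v1 - v0)‖ ≤ 2 * (4 * δ / th) := nbb (by rw [norm_star]; exact hv1n) heta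
    have t2 : ‖star (v1 - v0) * v0‖ ≤ (4 * δ / th) * 2 := nbb (by rw [norm_star]; exact heta) hv0n
    have t3 : δ ≤ δ / th := by rw [le_div_iff₀ hth]; nlinarith
    have t4 : 2 * (4 * δ / th) + (4 * δ / th) * 2 + δ / th = 17 * δ / th := by ring
    have t5 : 17 * δ / th ≤ D := by rw [div_le_iff₀ hth]; linarith
    linarith
  -- polar decomposition
  obtain ⟨x, hx⟩ : ∃ x : B, x = v1 * star v := ⟨_, rfl⟩
  have hkx : pt 0 0 * x = x := by rw [hx, ← mul_assoc, hptv1]
  have hxk : x * pt 0 0 = x := by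
    have := congrArg star hptv
    rw [star_mul, hrelp.st] at this
    rw [hx, mul_assoc, this]
  obtain ⟨w, hw1, hw2, hw3⟩ := hP (pt 0 0) x (hrelp.st 0 0) hkx hxk e he
  have hwp := polar x w w.2 e he hw3
  have hwn : ‖(w : B)‖ ≤ 1 := norm_unit_le _ w.2
  have hW1 : pt 0 0 * ((w : B) - 1) = (w : B) - 1 := by
    have : (1 - pt 0 0) * ((w : B) - 1) = 0 := by rw [mul_sub, hw1, mul_one, sub_self]
    rw [sub_mul, one_mul, sub_eq_zero] at this
    exact this.symm
  have hW2 : ((w : B) - 1) * pt 0 0 = (w : B) - 1 := by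
    have : ((w : B) - 1) * (1 - pt 0 0) = 0 := by rw [sub_mul, hw2, one_mul, sub_self]
    rw [mul_sub, mul_one, sub_eq_zero] at this
    exact this.symm
  have hW3 : pt 0 0 * (star (w : B) - 1) = star (w : B) - 1 := by
    have := congrArg star hW2
    rwa [star_mul, hrelp.st, star_sub, star_one] at this
  have hsq : ‖cfc Real.sqrt (star x * x) - v * star v‖ ≤ Real.sqrt D := by
    apply sqrt_close
    · letI := CStarAlgebra.spectralOrder B
      letI := CStarAlgebra.spectralOrderedRing B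
      exact star_mul_self_nonneg x
    · letI := CStarAlgebra.spectralOrder B
      letI := CStarAlgebra.spectralOrderedRing B
      exact mul_star_self_nonneg v
    · exact Real.sqrt_nonneg _
    · rw [Real.sq_sqrt hD.le]
      have e1 : star x * x - v * star v * (v * star v) =
          v * (star v1 * v1 - star v * v) * star v := by
        rw [hx, star_mul, star_star]; noncomm_ring
      rw [e1]
      exact nb' (nb hvn hd1) (by rw [norm_star]; exact hvn)
  -- `q`
  obtain ⟨q, hq⟩ : ∃ q : B, q = (w : B) * v - v1 := ⟨_, rfl⟩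
  have hqv : ‖q * star v‖ ≤ 2 * Real.sqrt e + Real.sqrt D := by
    have e1 : q * star v = ((w : B) * cfc Real.sqrt (star x * x) - x) -
        (w : B) * (cfc Real.sqrt (star x * x) - v * star v) := by
      rw [hq, sub_mul, ← hx, mul_sub, mul_assoc]; abel
    rw [e1]
    refine (norm_sub_le _ _).trans ?_
    have t1 : ‖(w : B) * (cfc Real.sqrt (star x * x) - v * star v)‖ ≤ Real.sqrt D := nb hwn hsq
    linarith
  have hq1 : ‖q * (1 - h)‖ ≤ 2 * Real.sqrt e + Real.sqrt D := by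
    rw [← hvv, ← mul_assoc]
    exact nb' hqv hvn
  obtain ⟨C, hC⟩ : ∃ C : B, C = 1 - (1 - h) * E := ⟨_, rfl⟩
  rw [← hC] at hC1 hCsa hCs
  have hvC : ‖v * C‖ ≤ Real.sqrt s := by
    apply Real.le_sqrt_of_sq_le
    rw [sq, ← CStarRing.norm_star_mul_self, star_mul, hCsa.star_eq]
    have e1 : C * star v * (v * C) = C * (1 - h) * C := by rw [← hvv]; simp only [mul_assoc]
    rw [e1]; exact hCs
  have hv1C : ‖v1 * C‖ ≤ Real.sqrt (s + D) := by
    apply Real.le_sqrt_of_sq_le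
    rw [sq, ← CStarRing.norm_star_mul_self, star_mul, hCsa.star_eq]
    have e1 : C * star v1 * (v1 * C) = C * (1 - h) * C + C * (star v1 * v1 - star v * v) * C := by
      rw [← hvv]; noncomm_ring
    rw [e1]
    refine (norm_add_le _ _).trans ?_
    have t2 : ‖C * (star v1 * v1 - star v * v) * C‖ ≤ D := nb' (nb hC1 hd1) hC1
    linarith
  have hqn : ‖q‖ ≤ (2 * Real.sqrt e + Real.sqrt D) / s + Real.sqrt s + Real.sqrt (s + D) := by
    have e1 : q = q * (1 - h) * E + ((w : B) * (v * C) - v1 * C) := by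
      have : (w : B) * (v * C) - v1 * C = q * C := by rw [hq, sub_mul, mul_assoc]
      rw [this, hC, mul_sub q 1 ((1 - h) * E), mul_one, ← mul_assoc q (1 - h) E]; abel
    rw [e1]
    refine (norm_add_le _ _).trans ?_
    have t1 : ‖q * (1 - h) * E‖ ≤ (2 * Real.sqrt e + Real.sqrt D) / s := by
      rw [div_eq_mul_one_div]
      exact nbb hq1 hE
    have t2 := norm_sub_le ((w : B) * (v * C)) (v1 * C)
    have t3 : ‖(w : B) * (v * C)‖ ≤ Real.sqrt s := nb hwn hvC
    linarith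
  -- the unitary `u`
  have hu := uu_unitary hrelp 0 (w : B) w.2 hW1 hW2
  obtain ⟨u, hudef⟩ : ∃ u : B, u = 1 + uu pt 0 ((w : B) - 1) := ⟨_, rfl⟩
  rw [← hudef] at hu
  have hun : ‖u‖ ≤ 1 := norm_unit_le _ hu
  have husn : ‖star u‖ ≤ 1 := by rw [norm_star]; exact hun
  have hu2 : u * star u = 1 := (Unitary.mem_iff.1 hu).2
  have hucm : ∀ i j, u * pt i j * star u = pt i j := by
    intro i j
    have : u * pt i j = pt i j * u := by
      rw [hudef, add_mul, mul_add, uu_comm hrelp 0 _ hW1 hW2, one_mul, mul_one]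
    rw [this, mul_assoc, hu2, mul_one]
  refine ⟨⟨u, hu⟩, ?_, ?_⟩
  · intro i j
    show ‖u * φ i j * star u - φ i j‖ ≤ 4 * th
    have hdiff : ‖φ i j - pt i j‖ ≤ 2 * th := by
      have e1 : φ i j - pt i j = - (φ i j * (K - 1)) := by rw [hpt', mul_sub, mul_one]; abel
      rw [e1, norm_neg]
      exact nb (hrel.norm_le i j) hK1
    have e1 : u * φ i j * star u - φ i j = u * (φ i j - pt i j) * star u - (φ i j - pt i j) := by
      rw [mul_sub, sub_mul, hucm]; abel
    rw [e1]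
    refine (norm_sub_le _ _).trans ?_
    have t2 : ‖u * (φ i j - pt i j) * star u‖ ≤ 2 * th := nb' (nb hun hdiff) husn
    linarith
  · show ‖u * v * star u - v0‖ ≤ _
    have huv : u * v = (w : B) * v := by
      rw [hudef, add_mul, one_mul, uu_v hrelp 0 _ v hptv hW1, sub_mul, one_mul]; abel
    have husub : star u - 1 = uu pt 0 (star (w : B) - 1) := by
      rw [hudef, star_add, star_one, uu_star hrelp, star_sub, star_one]; abel
    have htW : h * K * (star (w : B) - 1) = star (w : B) - 1 := by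
      have : pt 0 0 * (pt 0 0 * (star (w : B) - 1)) = star (w : B) - 1 := by rw [hW3, hW3]
      rw [← mul_assoc, hrelp.mu_self, mul_assoc, hW3] at this
      exact this
    have hone := norm_one_le' (B := B)
    have hWn : ‖star (w : B) - 1‖ ≤ 2 := by
      refine (norm_sub_le _ _).trans ?_
      rw [norm_star]; linarith
    have h1hW : ‖(1 - h) * (star (w : B) - 1)‖ ≤ 2 * th := by
      have e1 : (1 - h) * (star (w : B) - 1) = M * (star (w : B) - 1) := by
        rw [hM2, add_mul, smul_mul_assoc, sub_mul 1 (h * K), htW, one_mul, sub_self, smul_zero,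
          add_zero]
      rw [e1]
      exact (nbb hM hWn).trans (le_of_eq (by ring))
    have h1hu : ‖(1 - h) * (star u - 1)‖ ≤ (n + 1) * (2 * th) := by
      rw [husub]
      refine (uu_norm hrelp 0 _ (1 - h) ?_).trans ?_
      · intro i j
        rw [hpt', sub_mul, mul_sub, one_mul, mul_one, ← mul_assoc h, hrel.cm, mul_assoc, mul_assoc,
          cKh]
      · rw [Fintype.card_fin]
        push_cast
        gcongr
    have hvu : ‖v * (star u - 1)‖ ≤ Real.sqrt (4 * (n + 1) * th) := by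
      apply Real.le_sqrt_of_sq_le
      rw [sq, ← CStarRing.norm_star_mul_self, star_mul]
      have e1 : star (star u - 1) * star v * (v * (star u - 1)) =
          star (star u - 1) * ((1 - h) * (star u - 1)) := by
        rw [← hvv]; simp only [mul_assoc]
      rw [e1]
      have t1 : ‖star (star u - 1)‖ ≤ 2 := by
        rw [norm_star]; exact (norm_sub_le _ _).trans (by linarith)
      exact (nbb t1 h1hu).trans (le_of_eq (by ring))
    have e1 : u * v * star u - v0 = u * (v * (star u - 1)) + q + (v1 - v0) := by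
      rw [hq, mul_sub, mul_one, mul_sub, huv, ← mul_assoc, huv]; abel
    rw [e1]
    have t1 : ‖u * (v * (star u - 1))‖ ≤ Real.sqrt (4 * (n + 1) * th) := nb hun hvu
    have t2 := norm_add_le (u * (v * (star u - 1)) + q) (v1 - v0)
    have t3 := norm_add_le (u * (v * (star u - 1))) q
    linarith

theorem t_VST : S_VST := by
  intro B _ hP n φ v hR ε hε
  have hn : (0:ℝ) < n + 1 := by positivity
  obtain ⟨th, hth, hth2, hth3, hth4⟩ : ∃ th : ℝ, 0 < th ∧ th ≤ 1/2 ∧ 4 * th < ε ∧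
      4 * (n + 1) * th ≤ (ε / 8) ^ 2 := by
    refine ⟨min (min (1/2) (ε/8)) ((ε / 8) ^ 2 / (4 * (n + 1))), ?_, ?_, ?_, ?_⟩
    · positivity
    · exact (min_le_left _ _).trans (min_le_left _ _)
    · have := (min_le_left (min (1/2) (ε/8)) ((ε / 8) ^ 2 / (4 * ((n:ℝ) + 1)))).trans
        (min_le_right _ _)
      linarith
    · have := min_le_right (min (1/2) (ε/8)) ((ε / 8) ^ 2 / (4 * ((n:ℝ) + 1)))
      rwa [le_div_iff₀' (by positivity)] at this
  obtain ⟨s, hs, hs2⟩ : ∃ s : ℝ, 0 < s ∧ 2 * s = (ε / 8) ^ 2 :=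
    ⟨(ε / 8) ^ 2 / 2, by positivity, by ring⟩
  obtain ⟨e, he, he2⟩ : ∃ e : ℝ, 0 < e ∧ Real.sqrt e = s * ε / 16 := by
    refine ⟨(s * ε / 16) ^ 2, by positivity, ?_⟩
    exact Real.sqrt_sq (by positivity)
  obtain ⟨D, hD, hD1, hD2, hD3, hD4⟩ : ∃ D : ℝ, 0 < D ∧ D ≤ 1 ∧ D ≤ s ∧ D ≤ (s * ε / 8) ^ 2 ∧
      D ≤ ε / 8 := by
    refine ⟨min (min 1 s) (min ((s * ε / 8) ^ 2) (ε / 8)), by positivity, ?_, ?_, ?_, ?_⟩
    · exact (min_le_left _ _).trans (min_le_left _ _)
    · exact (min_le_left _ _).trans (min_le_right _ _)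
    · exact (min_le_right _ _).trans (min_le_left _ _)
    · exact (min_le_right _ _).trans (min_le_right _ _)
  refine ⟨th * D / 17, by positivity, ?_⟩
  intro v0 h1 h2
  obtain ⟨u, hu1, hu2⟩ := quant B hP n φ v hR th s e D (th * D / 17) hth hth2 hs he hD
    (by positivity) hD1 (by linarith) v0 h1.le h2.le
  refine ⟨u, fun i j => (hu1 i j).trans_lt hth3, hu2.trans_lt ?_⟩
  have a1 : Real.sqrt (4 * (n + 1) * th) ≤ ε / 8 := by
    rw [Real.sqrt_le_left (by positivity)]; exact hth4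
  have a2 : Real.sqrt D ≤ s * ε / 8 := by
    rw [Real.sqrt_le_left (by positivity)]; exact hD3
  have a3 : Real.sqrt s ≤ ε / 8 := by
    rw [Real.sqrt_le_left (by positivity)]; linarith
  have a4 : Real.sqrt (s + D) ≤ ε / 8 := by
    rw [Real.sqrt_le_left (by positivity)]; linarith
  have a5 : (2 * Real.sqrt e + Real.sqrt D) / s ≤ ε / 4 := by
    rw [div_le_iff₀ hs, he2]; linarith
  linarith

end Pool.Agent.H923R2.FZ.T_VST
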