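import Pool.Agent.H923R2.FZ.Stubs1

/-! Task VST of MP_118406_an: the element `v` of a Rørdam–Winter system. -/

set_option autoImplicit false
set_option linter.style.haveILetI false

open scoped ComplexConjugate Polynomial

noncomputable section

namespace Pool.Agent.H923R2.FZ.T_VST

variable {B : Type*} [CStarAlgebra B]


theorem poly_eig (x c : B) (lam : ℝ) (h : x * c = lam • c) (p : ℝ[X]) :
    Polynomial.aeval x p * c = p.eval lam • c := by
  induction p using Polynomial.induction_on' with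
  | add p q hp hq => rw [map_add, add_mul, hp, hq, Polynomial.eval_add, add_smul]
  | monomial n a =>
    rw [Polynomial.aeval_monomial, Polynomial.eval_monomial, mul_assoc]
    have : x ^ n * c = lam ^ n • c := by
      induction n with
      | zero => simp
      | succ n ih => rw [pow_succ, mul_assoc, h, mul_smul_comm, ih, smul_smul, pow_succ, mul_comm lam]
    rw [this, Algebra.algebraMap_eq_smul_one, smul_mul_assoc, one_mul, smul_smul]

theorem poly_near (x : B) (hx : IsSelfAdjoint x) (hs : spectrum ℝ x ⊆ Set.Icc 0 1) (F : ℝ → ℝ)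
    (hF : ContinuousOn F (Set.Icc 0 1)) (e : ℝ) (he : 0 < e) :
    ∃ p : ℝ[X], (∀ t ∈ Set.Icc (0:ℝ) 1, |p.eval t - F t| < e) ∧
      ‖Polynomial.aeval x p - cfc F x‖ ≤ e := by
  obtain ⟨p, hp⟩ := exists_polynomial_near_of_continuousOn 0 1 F hF e he
  refine ⟨p, hp, ?_⟩
  rw [← cfc_polynomial (R := ℝ) p x hx, ← cfc_sub (R := ℝ) _ _ x (by fun_prop) (hF.mono hs)]
  apply norm_cfc_le he.le
  intro t ht
  exact (hp t (hs ht)).le

/-- eigenvalue lemma -/
theorem cfc_eig (x c : B) (hx : IsSelfAdjoint x) (hs : spectrum ℝ x ⊆ Set.Icc 0 1) (F : ℝ → ℝ)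
    (hF : ContinuousOn F (Set.Icc 0 1)) (lam : ℝ) (hl : lam ∈ Set.Icc (0:ℝ) 1)
    (h : x * c = lam • c) : cfc F x * c = F lam • c := by
  rw [← sub_eq_zero, ← norm_le_zero_iff]
  apply le_of_forall_pos_le_add
  intro e he
  rw [zero_add]
  have he' : 0 < e / (2 * (‖c‖ + 1)) := by positivity
  obtain ⟨p, hp, hp2⟩ := poly_near x hx hs F hF _ he'
  have h1 : cfc F x * c - F lam • c = (p.eval lam - F lam) • c
      - (Polynomial.aeval x p - cfc F x) * c := by
    rw [sub_mul, poly_eig x c lam h p, sub_smul]; abel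
  rw [h1]
  have h2 := norm_sub_le ((p.eval lam - F lam) • c) ((Polynomial.aeval x p - cfc F x) * c)
  have h3 : ‖(p.eval lam - F lam) • c‖ ≤ e / (2 * (‖c‖ + 1)) * ‖c‖ := by
    rw [norm_smul]; exact mul_le_mul_of_nonneg_right (hp lam hl).le (norm_nonneg _)
  have h4 : ‖(Polynomial.aeval x p - cfc F x) * c‖ ≤ e / (2 * (‖c‖ + 1)) * ‖c‖ :=
    (norm_mul_le _ _).trans (mul_le_mul_of_nonneg_right hp2 (norm_nonneg _))
  have h5 : e / (2 * (‖c‖ + 1)) * ‖c‖ ≤ e / 2 := by
    rw [div_mul_eq_mul_div, div_le_div_iff₀ (by positivity) (by positivity)]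
    nlinarith [norm_nonneg c]
  linarith

theorem sqrt_close (a b : B) (ha : (letI := CStarAlgebra.spectralOrder B; 0 ≤ a))
    (hb : (letI := CStarAlgebra.spectralOrder B; 0 ≤ b)) (e : ℝ)
    (he : 0 ≤ e) (h : ‖a - b * b‖ ≤ e ^ 2) : ‖cfc Real.sqrt a - b‖ ≤ e := by
  rcases subsingleton_or_nontrivial B with hB | hB
  · rw [Subsingleton.elim (cfc Real.sqrt a - b) 0, norm_zero]; exact he
  letI := CStarAlgebra.spectralOrder B
  letI := CStarAlgebra.spectralOrderedRing B
  have hsa : 0 ≤ CFC.sqrt a := CFC.sqrt_nonneg a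
  have e1 : cfc Real.sqrt a = CFC.sqrt a := by
    rw [CFC.sqrt_eq_real_sqrt a ha, cfcₙ_eq_cfc]
  rw [e1]
  have he1 : (0:B) ≤ algebraMap ℝ B e := by
    rw [← map_zero (algebraMap ℝ B)]; exact (algebraMap_le_algebraMap (α := ℝ) (β := B)).2 he
  have key : ∀ c d : B, 0 ≤ c → 0 ≤ d → c * c ≤ d * d + algebraMap ℝ B (e ^ 2) →
      c ≤ d + algebraMap ℝ B e := by
    intro c d hc hd h
    have h2 : c * c ≤ (d + algebraMap ℝ B e) * (d + algebraMap ℝ B e) := by
      refine h.trans ?_
      have : (d + algebraMap ℝ B e) * (d + algebraMap ℝ B e) =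
          d * d + algebraMap ℝ B (e ^ 2) + (2 * e) • d := by
        simp only [Algebra.algebraMap_eq_smul_one, add_mul, mul_add, smul_mul_assoc, mul_smul_comm,
          one_mul, mul_one]
        module
      rw [this]
      exact le_add_of_nonneg_right (smul_nonneg (by positivity) hd)
    have h3 := CFC.sqrt_le_sqrt _ _ h2
    rwa [CFC.sqrt_mul_self c hc, CFC.sqrt_mul_self _ (add_nonneg hd he1)] at h3
  have hsas : CFC.sqrt a * CFC.sqrt a = a := CFC.sqrt_mul_sqrt_self a ha
  have hsad : IsSelfAdjoint (a - b * b) := (IsSelfAdjoint.of_nonneg ha).sub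
    (by have := (IsSelfAdjoint.of_nonneg hb); rw [IsSelfAdjoint, star_mul, this.star_eq])
  have h1 : a - b * b ≤ algebraMap ℝ B (e ^ 2) :=
    (IsSelfAdjoint.le_algebraMap_norm_self hsad).trans
      ((algebraMap_le_algebraMap (α := ℝ) (β := B)).2 h)
  have h2 : -(a - b * b) ≤ algebraMap ℝ B (e ^ 2) := by
    have := (IsSelfAdjoint.le_algebraMap_norm_self hsad.neg)
    rw [norm_neg] at this
    exact this.trans ((algebraMap_le_algebraMap (α := ℝ) (β := B)).2 h)
  have h3 := key (CFC.sqrt a) b hsa hb (by rw [hsas]; rw [sub_le_iff_le_add'] at h1; exact h1)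
  have h4 := key b (CFC.sqrt a) hb hsa (by
    rw [hsas]; rw [neg_sub, sub_le_iff_le_add'] at h2; exact h2)
  have hsd : IsSelfAdjoint (CFC.sqrt a - b) :=
    (IsSelfAdjoint.of_nonneg hsa).sub (IsSelfAdjoint.of_nonneg hb)
  rw [← sub_le_iff_le_add'] at h3 h4
  have h5 := (le_algebraMap_iff_spectrum_le (R := ℝ) (a := CFC.sqrt a - b) (r := e) hsd).1 h3
  have h6 := (algebraMap_le_iff_le_spectrum (R := ℝ) (a := CFC.sqrt a - b) (r := -e) hsd).1
    (by rw [map_neg, neg_le]; simpa using h4)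
  rw [← cfc_id' ℝ (CFC.sqrt a - b)]
  exact norm_cfc_le he fun x hx => abs_le.2 ⟨h6 x hx, h5 x hx⟩



theorem norm_cfc_Icc (x : B) (hs : spectrum ℝ x ⊆ Set.Icc 0 1) (F : ℝ → ℝ) (c : ℝ) (hc : 0 ≤ c)
    (h : ∀ t ∈ Set.Icc (0:ℝ) 1, |F t| ≤ c) : ‖cfc F x‖ ≤ c :=
  norm_cfc_le hc fun t ht => h t (hs ht)

theorem cut_K (h : B) (hsa : IsSelfAdjoint h) (hs : spectrum ℝ h ⊆ Set.Icc 0 1) (th : ℝ)
    (h0 : 0 < th) (h1 : th ≤ 1/2) :
    ∃ K M D : B, (∀ y : B, Commute h y → Commute K y) ∧ (∀ y : B, Commute h y → Commute D y) ∧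
      IsSelfAdjoint K ∧ ‖K - 1‖ ≤ 2 * th ∧ ‖h * K‖ ≤ 1 ∧ ‖M‖ ≤ th ∧
      1 - h = M + (1 - th) • (1 - h * K) ∧ ‖D‖ ≤ 1 / th ∧
      h * K * (1 - D * (1 - h)) = 1 - D * (1 - h) ∧ ‖1 - D * (1 - h)‖ ≤ 1 ∧
      (∀ v, h * v = v → K * v = v) := by
  have hid : h = cfc (fun t : ℝ => t) h := (cfc_id' ℝ h).symm
  have hone : (1:B) = cfc (fun _ : ℝ => (1:ℝ)) h := (cfc_const_one ℝ h).symm
  have hmx : ∀ t : ℝ, max t (1-th) ≠ 0 := fun t => by
    have := le_max_right t (1-th); linarith
  have hmx2 : ∀ t : ℝ, max (1-t) th ≠ 0 := fun t => by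
    have := le_max_right (1-t) th; linarith
  have cK : Continuous (fun t : ℝ => (max t (1-th))⁻¹) := by
    exact Continuous.inv₀ (by fun_prop) hmx
  have cD : Continuous (fun t : ℝ => (max (1-t) th)⁻¹) := by
    exact Continuous.inv₀ (by fun_prop) hmx2
  have eK : h * cfc (fun t : ℝ => (max t (1-th))⁻¹) h = cfc (fun t : ℝ => t * (max t (1-th))⁻¹) h := by
    conv_lhs => rw [show h * cfc (fun t : ℝ => (max t (1-th))⁻¹) h =
      cfc (fun t : ℝ => t) h * cfc (fun t : ℝ => (max t (1-th))⁻¹) h by rw [cfc_id' ℝ h]]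
    rw [← cfc_mul (R := ℝ) _ _ h (by fun_prop) cK.continuousOn]
  have e1h : 1 - h = cfc (fun t : ℝ => 1 - t) h := by
    rw [cfc_sub (R := ℝ) _ _ h (by fun_prop) (by fun_prop), cfc_const_one ℝ h, cfc_id' ℝ h]
  have eD : 1 - cfc (fun t : ℝ => (max (1-t) th)⁻¹) h * (1 - h) =
      cfc (fun t : ℝ => 1 - (max (1-t) th)⁻¹ * (1 - t)) h := by
    rw [cfc_sub (R := ℝ) (fun _ => 1) (fun t => (max (1-t) th)⁻¹ * (1 - t)) h (by fun_prop)
      (cD.mul (continuous_const.sub continuous_id)).continuousOn, cfc_const_one ℝ h,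
      cfc_mul (R := ℝ) _ _ h cD.continuousOn (by fun_prop), ← e1h]
  refine ⟨cfc (fun t : ℝ => (max t (1-th))⁻¹) h, cfc (fun t : ℝ => min (1-t) th) h,
    cfc (fun t : ℝ => (max (1-t) th)⁻¹) h, fun y hy => hy.cfc_real _, fun y hy => hy.cfc_real _,
    cfc_predicate _ _, ?_, ?_, ?_, ?_, ?_, ?_, ?_, ?_⟩
  · have : cfc (fun t : ℝ => (max t (1-th))⁻¹) h - 1 = cfc (fun t : ℝ => (max t (1-th))⁻¹ - 1) h := by
      rw [cfc_sub (R := ℝ) _ _ h cK.continuousOn (by fun_prop), cfc_const_one ℝ h]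
    rw [this]
    apply norm_cfc_Icc h hs _ _ (by positivity)
    intro t ht
    have h3 : 1 - th ≤ max t (1-th) := le_max_right _ _
    have h4 : max t (1-th) ≤ 1 := max_le ht.2 (by linarith)
    have h5 : (0:ℝ) < max t (1-th) := by linarith
    rw [abs_le]
    constructor
    · have : 1 ≤ (max t (1-th))⁻¹ := (one_le_inv₀ h5).2 h4
      linarith
    · have : (max t (1-th))⁻¹ ≤ 1 + 2 * th := by
        rw [inv_le_comm₀ h5 (by positivity)]
        refine le_trans ?_ h3
        rw [inv_le_comm₀ (by positivity) (by linarith), inv_eq_one_div, div_le_iff₀ (by linarith)]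
        nlinarith
      linarith
  · rw [eK]
    apply norm_cfc_Icc h hs _ _ (by positivity)
    intro t ht
    have h3 : t ≤ max t (1-th) := le_max_left _ _
    have h5 : (0:ℝ) < max t (1-th) := by have := le_max_right t (1-th); linarith
    rw [abs_of_nonneg (mul_nonneg ht.1 (inv_nonneg.2 h5.le)), ← div_eq_mul_inv, div_le_one h5]
    exact h3
  · apply norm_cfc_Icc h hs _ _ h0.le
    intro t ht
    rw [abs_of_nonneg (le_min (by linarith [ht.2]) h0.le)]
    exact min_le_right _ _
  · rw [eK, e1h]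
    have : (1 - th) • ((1:B) - cfc (fun t : ℝ => t * (max t (1-th))⁻¹) h) =
        cfc (fun t : ℝ => (1 - th) * (1 - t * (max t (1-th))⁻¹)) h := by
      rw [cfc_const_mul (R := ℝ) (1-th) (fun t => 1 - t * (max t (1-th))⁻¹) h
        ((continuous_const.sub (continuous_id.mul cK)).continuousOn),
        cfc_sub (R := ℝ) (fun _ => 1) (fun t => t * (max t (1-th))⁻¹) h (by fun_prop)
        ((continuous_id.mul cK).continuousOn), cfc_const_one ℝ h]
    rw [this, ← cfc_add (R := ℝ) h (fun t => min (1-t) th)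
      (fun t => (1 - th) * (1 - t * (max t (1-th))⁻¹)) (by fun_prop)
      ((continuous_const.mul (continuous_const.sub (continuous_id.mul cK))).continuousOn)]
    apply cfc_congr
    intro t ht
    show 1 - t = min (1-t) th + (1 - th) * (1 - t * (max t (1-th))⁻¹)
    rcases le_total t (1-th) with h3 | h3
    · rw [max_eq_right h3, min_eq_right (by linarith)]
      have : (1 - th) ≠ 0 := by linarith
      field_simp
      ring
    · rw [max_eq_left h3, min_eq_left (by linarith)]
      have : t ≠ 0 := by linarith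
      field_simp
      ring
  · apply norm_cfc_Icc h hs _ _ (by positivity)
    intro t ht
    have h5 : th ≤ max (1-t) th := le_max_right _ _
    rw [abs_of_nonneg (inv_nonneg.2 (by linarith)), one_div]
    exact inv_anti₀ h0 h5
  · rw [eK, eD, ← cfc_mul (R := ℝ) (fun t => t * (max t (1-th))⁻¹)
      (fun t => 1 - (max (1-t) th)⁻¹ * (1 - t)) h (continuous_id.mul cK).continuousOn
      (continuous_const.sub (cD.mul (continuous_const.sub continuous_id))).continuousOn]
    apply cfc_congr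
    intro t ht
    show t * (max t (1-th))⁻¹ * (1 - (max (1-t) th)⁻¹ * (1 - t)) = 1 - (max (1-t) th)⁻¹ * (1 - t)
    rcases le_total t (1-th) with h3 | h3
    · have : (1 - t) ≠ 0 := by linarith
      rw [max_eq_left (show th ≤ 1 - t by linarith), inv_mul_cancel₀ this]; ring
    · have : t ≠ 0 := by linarith
      rw [max_eq_left h3, mul_inv_cancel₀ this, one_mul]
  · rw [eD]
    apply norm_cfc_Icc h hs _ _ (by positivity)
    intro t ht
    have h5 : (1-t) ≤ max (1-t) th := le_max_left _ _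
    have h6 : 0 < max (1-t) th := by have := le_max_right (1-t) th; linarith
    have h7 : (max (1-t) th)⁻¹ * (1 - t) ≤ 1 := by
      rw [inv_mul_le_iff₀ h6, mul_one]; exact h5
    have h8 : 0 ≤ (max (1-t) th)⁻¹ * (1 - t) := mul_nonneg (inv_nonneg.2 h6.le) (by linarith [ht.2])
    rw [abs_le]; constructor <;> linarith
  · intro v hv
    rw [cfc_eig h v hsa hs _ cK.continuousOn 1 (by simp) (by rw [one_smul]; exact hv)]
    rw [max_eq_left (by linarith), inv_one, one_smul]

theorem cut_E (h : B) (hsa : IsSelfAdjoint h) (hs : spectrum ℝ h ⊆ Set.Icc 0 1) (s : ℝ)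
    (h0 : 0 < s) :
    ∃ E : B, ‖E‖ ≤ 1 / s ∧ ‖1 - (1 - h) * E‖ ≤ 1 ∧ IsSelfAdjoint (1 - (1 - h) * E) ∧
      ‖(1 - (1 - h) * E) * (1 - h) * (1 - (1 - h) * E)‖ ≤ s := by
  have hmx2 : ∀ t : ℝ, max (1-t) s ≠ 0 := fun t => by
    have := le_max_right (1-t) s; linarith
  have cD : Continuous (fun t : ℝ => (max (1-t) s)⁻¹) := by
    exact Continuous.inv₀ (by fun_prop) hmx2
  have e1h : 1 - h = cfc (fun t : ℝ => 1 - t) h := by
    rw [cfc_sub (R := ℝ) _ _ h (by fun_prop) (by fun_prop), cfc_const_one ℝ h, cfc_id' ℝ h]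
  have eD : 1 - (1 - h) * cfc (fun t : ℝ => (max (1-t) s)⁻¹) h =
      cfc (fun t : ℝ => 1 - (1 - t) * (max (1-t) s)⁻¹) h := by
    rw [cfc_sub (R := ℝ) (fun _ => 1) (fun t => (1 - t) * (max (1-t) s)⁻¹) h (by fun_prop)
      ((continuous_const.sub continuous_id).mul cD).continuousOn, cfc_const_one ℝ h,
      cfc_mul (R := ℝ) _ _ h (by fun_prop) cD.continuousOn, ← e1h]
  have cC : Continuous (fun t : ℝ => 1 - (1 - t) * (max (1-t) s)⁻¹) :=
    continuous_const.sub ((continuous_const.sub continuous_id).mul cD)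
  have bd : ∀ t ∈ Set.Icc (0:ℝ) 1, 0 ≤ 1 - (1 - t) * (max (1-t) s)⁻¹ ∧
      1 - (1 - t) * (max (1-t) s)⁻¹ ≤ 1 := by
    intro t ht
    have h5 : (1-t) ≤ max (1-t) s := le_max_left _ _
    have h6 : 0 < max (1-t) s := by have := le_max_right (1-t) s; linarith
    have h7 : (1 - t) * (max (1-t) s)⁻¹ ≤ 1 := by
      rw [mul_inv_le_iff₀ h6, one_mul]; exact h5
    have h8 : 0 ≤ (1 - t) * (max (1-t) s)⁻¹ := mul_nonneg (by linarith [ht.2]) (inv_nonneg.2 h6.le)
    constructor <;> linarith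
  refine ⟨cfc (fun t : ℝ => (max (1-t) s)⁻¹) h, ?_, ?_, ?_, ?_⟩
  · apply norm_cfc_Icc h hs _ _ (by positivity)
    intro t ht
    have h5 : s ≤ max (1-t) s := le_max_right _ _
    rw [abs_of_nonneg (inv_nonneg.2 (by linarith)), one_div]
    exact inv_anti₀ h0 h5
  · rw [eD]
    apply norm_cfc_Icc h hs _ _ (by positivity)
    intro t ht
    have := bd t ht
    rw [abs_of_nonneg this.1]; exact this.2
  · rw [eD]; exact cfc_predicate _ _
  · rw [eD, e1h, ← cfc_mul (R := ℝ) _ _ h cC.continuousOn (by fun_prop),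
      ← cfc_mul (R := ℝ) (fun t => (1 - (1 - t) * (max (1-t) s)⁻¹) * (1 - t)) _ h
        (cC.mul (continuous_const.sub continuous_id)).continuousOn cC.continuousOn]
    apply norm_cfc_Icc h hs _ _ h0.le
    intro t ht
    have hb := bd t ht
    rcases le_total s (1-t) with h3 | h3
    · have : (1 - t) ≠ 0 := by linarith
      rw [max_eq_left h3, mul_inv_cancel₀ this]; simp [h0.le]
    · have h1t : 0 ≤ 1 - t := by linarith [ht.2]
      have := hb.1
      rw [abs_of_nonneg (mul_nonneg (mul_nonneg hb.1 h1t) hb.1)]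
      calc (1 - (1 - t) * (max (1 - t) s)⁻¹) * (1 - t) * (1 - (1 - t) * (max (1 - t) s)⁻¹)
          ≤ 1 * (1 - t) * 1 := by
            gcongr
            · exact hb.2
            · exact hb.2
        _ ≤ s := by linarith



theorem spec_nonneg (x : B) : ∀ t ∈ spectrum ℝ (star x * x), 0 ≤ t := by
  letI := CStarAlgebra.spectralOrder B
  letI := CStarAlgebra.spectralOrderedRing B
  intro t ht
  exact spectrum_nonneg_of_nonneg (star_mul_self_nonneg x) ht

theorem polar (x : B) (w : B) (hw : w ∈ unitary B) (e : ℝ) (he : 0 < e)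
    (H : ∀ G : ℝ → ℝ, Continuous G → (∀ t, t ≤ e → G t = 0) →
      w * cfc G (star x * x) = x * cfc (fun t => G t / Real.sqrt t) (star x * x)) :
    ‖w * cfc Real.sqrt (star x * x) - x‖ ≤ 2 * Real.sqrt e := by
  have hmx : ∀ t : ℝ, 0 < max t e := fun t => lt_of_lt_of_le he (le_max_right _ _)
  have cM : Continuous (fun t : ℝ => (max t e)⁻¹) :=
    Continuous.inv₀ (by fun_prop) fun t => (hmx t).ne'
  have cg : Continuous (fun t : ℝ => 1 - e * (max t e)⁻¹) :=
    continuous_const.sub (continuous_const.mul cM)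
  have cG : Continuous (fun t : ℝ => Real.sqrt t * (1 - e * (max t e)⁻¹)) :=
    Real.continuous_sqrt.mul cg
  have h1 := H (fun t => Real.sqrt t * (1 - e * (max t e)⁻¹)) cG (fun t ht => by
    show Real.sqrt t * (1 - e * (max t e)⁻¹) = 0
    rw [max_eq_right ht, mul_inv_cancel₀ he.ne']; simp)
  have h2 : (fun t => Real.sqrt t * (1 - e * (max t e)⁻¹) / Real.sqrt t) =
      fun t => 1 - e * (max t e)⁻¹ := by
    funext t
    rcases le_or_gt t 0 with ht | ht
    · rw [Real.sqrt_eq_zero_of_nonpos ht, max_eq_right (ht.trans he.le), mul_inv_cancel₀ he.ne']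
      simp
    · have := (Real.sqrt_pos.2 ht).ne'
      field_simp
  rw [h2] at h1
  set y := star x * x with hy
  have hys : IsSelfAdjoint y := IsSelfAdjoint.star_mul_self x
  have e1 : cfc Real.sqrt y - cfc (fun t : ℝ => Real.sqrt t * (1 - e * (max t e)⁻¹)) y =
      cfc (fun t : ℝ => Real.sqrt t * (e * (max t e)⁻¹)) y := by
    rw [← cfc_sub (R := ℝ) _ _ y (Real.continuous_sqrt.continuousOn) cG.continuousOn]
    apply cfc_congr
    intro t ht
    show Real.sqrt t - Real.sqrt t * (1 - e * (max t e)⁻¹) = Real.sqrt t * (e * (max t e)⁻¹)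
    ring
  have e2 : 1 - cfc (fun t : ℝ => 1 - e * (max t e)⁻¹) y = cfc (fun t : ℝ => e * (max t e)⁻¹) y := by
    rw [cfc_sub (R := ℝ) (fun _ => 1) (fun t => e * (max t e)⁻¹) y (by fun_prop)
      (continuous_const.mul cM).continuousOn, cfc_const_one ℝ y]
    abel
  have hsp := spec_nonneg x
  rw [← hy] at hsp
  have key : ∀ t : ℝ, 0 ≤ t → Real.sqrt t * (e * (max t e)⁻¹) ≤ Real.sqrt e := by
    intro t ht
    have hM := hmx t
    have a1 : Real.sqrt t ≤ Real.sqrt (max t e) := Real.sqrt_le_sqrt (le_max_left _ _)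
    have a2 : Real.sqrt e ≤ Real.sqrt (max t e) := Real.sqrt_le_sqrt (le_max_right _ _)
    have a3 : Real.sqrt (max t e) * Real.sqrt (max t e) = max t e := Real.mul_self_sqrt hM.le
    have a4 : Real.sqrt e * Real.sqrt e = e := Real.mul_self_sqrt he.le
    have a5 := Real.sqrt_nonneg e
    have a6 := Real.sqrt_nonneg t
    rw [← mul_assoc, mul_inv_le_iff₀ hM]
    calc Real.sqrt t * e = Real.sqrt t * Real.sqrt e * Real.sqrt e := by rw [mul_assoc, a4]
      _ ≤ Real.sqrt (max t e) * Real.sqrt (max t e) * Real.sqrt e := by gcongr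
      _ = Real.sqrt e * max t e := by rw [a3, mul_comm]
  have b1 : ‖cfc (fun t : ℝ => Real.sqrt t * (e * (max t e)⁻¹)) y‖ ≤ Real.sqrt e := by
    apply norm_cfc_le (Real.sqrt_nonneg e)
    intro t ht
    rw [Real.norm_of_nonneg (mul_nonneg (Real.sqrt_nonneg _)
      (mul_nonneg he.le (inv_nonneg.2 (hmx t).le)))]
    exact key t (hsp t ht)
  have b2 : ‖x * cfc (fun t : ℝ => e * (max t e)⁻¹) y‖ ≤ Real.sqrt e := by
    apply Real.le_sqrt_of_sq_le
    rw [sq, ← CStarRing.norm_star_mul_self, star_mul]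
    have hq : star (cfc (fun t : ℝ => e * (max t e)⁻¹) y) = cfc (fun t : ℝ => e * (max t e)⁻¹) y :=
      IsSelfAdjoint.star_eq (cfc_predicate _ _)
    have : cfc (fun t : ℝ => e * (max t e)⁻¹) y * star x * (x * cfc (fun t : ℝ => e * (max t e)⁻¹) y)
        = cfc (fun t : ℝ => e * (max t e)⁻¹ * t * (e * (max t e)⁻¹)) y := by
      rw [cfc_mul (R := ℝ) (fun t => e * (max t e)⁻¹ * t) (fun t => e * (max t e)⁻¹) y
        ((continuous_const.mul cM).mul continuous_id).continuousOn
        (continuous_const.mul cM).continuousOn,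
        cfc_mul (R := ℝ) (fun t => e * (max t e)⁻¹) (fun t => t) y
        (continuous_const.mul cM).continuousOn continuous_id.continuousOn, cfc_id' ℝ y, hy]
      simp only [mul_assoc]
    rw [hq, this]
    apply norm_cfc_le he.le
    intro t ht
    have ht0 := hsp t ht
    have hM := hmx t
    rw [Real.norm_of_nonneg (by positivity)]
    have c1 : (max t e)⁻¹ * t ≤ 1 := by rw [inv_mul_le_iff₀ hM, mul_one]; exact le_max_left _ _
    have c2 : e * (max t e)⁻¹ ≤ 1 := by rw [mul_inv_le_iff₀ hM, one_mul]; exact le_max_right _ _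
    calc e * (max t e)⁻¹ * t * (e * (max t e)⁻¹) = e * ((max t e)⁻¹ * t) * (e * (max t e)⁻¹) := by ring
      _ ≤ e * 1 * 1 := by gcongr
      _ = e := by ring
  have e3 : w * cfc Real.sqrt y - x =
      w * (cfc Real.sqrt y - cfc (fun t : ℝ => Real.sqrt t * (1 - e * (max t e)⁻¹)) y) -
      x * (1 - cfc (fun t : ℝ => 1 - e * (max t e)⁻¹) y) := by
    rw [mul_sub, h1, mul_sub, mul_one]; abel
  rw [e3, e1, e2]
  refine (norm_sub_le _ _).trans ?_
  have hw1 : ‖w‖ ≤ 1 := by
    rcases subsingleton_or_nontrivial B with hB | hB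
    · rw [Subsingleton.elim w 0, norm_zero]; exact zero_le_one
    · exact (CStarRing.norm_of_mem_unitary hw).le
  have : ‖w * cfc (fun t : ℝ => Real.sqrt t * (e * (max t e)⁻¹)) y‖ ≤ Real.sqrt e :=
    (norm_mul_le _ _).trans ((mul_le_mul hw1 b1 (norm_nonneg _) zero_le_one).trans (by rw [one_mul]))
  linarith


variable {ι : Type*} [Fintype ι] [DecidableEq ι]

/-- relations of an order zero system -/
structure Rel (p : ι → ι → B) (t : B) : Prop where
  st : ∀ i j, star (p i j) = p j i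
  mu : ∀ i j k l, p i j * p k l = if j = k then t * p i l else 0
  cm : ∀ i j, t * p i j = p i j * t
  tn : ‖t‖ ≤ 1

omit [Fintype ι] in
theorem Rel.mu_self {p : ι → ι → B} {t : B} (h : Rel p t) (i j l : ι) : p i j * p j l = t * p i l := by
  rw [h.mu, if_pos rfl]

theorem Rel.norm_diag {p : ι → ι → B} {t : B} (h : Rel p t) (j : ι) : ‖p j j‖ ≤ 1 := by
  have h1 : ‖p j j‖ * ‖p j j‖ = ‖t * p j j‖ := by
    rw [← h.mu_self j j j]
    have : p j j * p j j = star (p j j) * p j j := by rw [h.st]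
    rw [this, CStarRing.norm_star_mul_self]
  have h2 : ‖p j j‖ * ‖p j j‖ ≤ 1 * ‖p j j‖ := by
    rw [h1]; exact (norm_mul_le _ _).trans (mul_le_mul_of_nonneg_right h.tn (norm_nonneg _))
  by_contra hc
  push Not at hc
  nlinarith

theorem Rel.norm_le {p : ι → ι → B} {t : B} (h : Rel p t) (i j : ι) : ‖p i j‖ ≤ 1 := by
  have h1 : ‖p i j‖ * ‖p i j‖ = ‖t * p j j‖ := by
    rw [← h.mu_self j i j, ← h.st i j, CStarRing.norm_star_mul_self]
  have h2 : ‖p i j‖ * ‖p i j‖ ≤ 1 * 1 := by
    rw [h1]; exact (norm_mul_le _ _).trans (mul_le_mul h.tn (h.norm_diag j) (norm_nonneg _) zero_le_one)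
  by_contra hc
  push Not at hc
  nlinarith

/-- sum of matrix corners -/
def uu (p : ι → ι → B) (o : ι) (W : B) : B := ∑ i, p i o * W * p o i

theorem uu_mul {p : ι → ι → B} {t : B} (h : Rel p t) (o : ι) (W V : B)
    (hV : p o o * V = V) : uu p o W * uu p o V = uu p o (W * V) := by
  have htV : t * V = V := by
    have : p o o * (p o o * V) = V := by rw [hV, hV]
    rw [← mul_assoc, h.mu_self, mul_assoc, hV] at this
    exact this
  rw [uu, uu, uu, Finset.sum_mul_sum]
  apply Finset.sum_congr rfl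
  intro i _
  rw [Finset.sum_eq_single i]
  · calc p i o * W * p o i * (p i o * V * p o i) = p i o * W * (p o i * p i o) * V * p o i := by
          simp only [mul_assoc]
      _ = p i o * (W * V) * p o i := by
          rw [h.mu_self]
          simp only [mul_assoc]
          rw [← mul_assoc (p o o) V, hV, ← mul_assoc t V, htV]
  · intro j _ hj
    calc p i o * W * p o i * (p j o * V * p o j) = p i o * W * (p o i * p j o) * V * p o j := by
          simp only [mul_assoc]
      _ = 0 := by rw [h.mu, if_neg (Ne.symm hj)]; simp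
  · intro hi; exact absurd (Finset.mem_univ i) hi

theorem uu_star {p : ι → ι → B} {t : B} (h : Rel p t) (o : ι) (W : B) :
    star (uu p o W) = uu p o (star W) := by
  rw [uu, uu, star_sum]
  apply Finset.sum_congr rfl
  intro i _
  rw [star_mul, star_mul, h.st, h.st, mul_assoc]

omit [DecidableEq ι] in
theorem uu_add (p : ι → ι → B) (o : ι) (W V : B) : uu p o (W + V) = uu p o W + uu p o V := by
  simp [uu, mul_add, add_mul, Finset.sum_add_distrib]

omit [DecidableEq ι] in
theorem uu_zero (p : ι → ι → B) (o : ι) : uu p o 0 = 0 := by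
  simp [uu]

theorem uu_comm {p : ι → ι → B} {t : B} (h : Rel p t) (o : ι) (W : B)
    (hW : p o o * W = W) (hW' : W * p o o = W) (k l : ι) : uu p o W * p k l = p k l * uu p o W := by
  have htW : t * W = W := by
    have : p o o * (p o o * W) = W := by rw [hW, hW]
    rw [← mul_assoc, h.mu_self, mul_assoc, hW] at this
    exact this
  have htW' : W * t = W := by
    have : (W * p o o) * p o o = W := by rw [hW', hW']
    rw [mul_assoc, h.mu_self, h.cm, ← mul_assoc, hW'] at this
    exact this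
  have e1 : uu p o W * p k l = p k o * W * p o l := by
    rw [uu, Finset.sum_mul, Finset.sum_eq_single k]
    · rw [mul_assoc, h.mu_self, mul_assoc, ← mul_assoc W, htW', mul_assoc]
    · intro j _ hj
      rw [mul_assoc, h.mu, if_neg hj, mul_zero]
    · intro hi; exact absurd (Finset.mem_univ k) hi
  have e2 : p k l * uu p o W = p k o * W * p o l := by
    rw [uu, Finset.mul_sum, Finset.sum_eq_single l]
    · rw [← mul_assoc, ← mul_assoc, h.mu_self, h.cm, mul_assoc (p k o), htW]
    · intro j _ hj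
      rw [← mul_assoc, ← mul_assoc, h.mu, if_neg (Ne.symm hj), zero_mul, zero_mul]
    · intro hi; exact absurd (Finset.mem_univ l) hi
  rw [e1, e2]

/-- the unitary -/
theorem uu_unitary {p : ι → ι → B} {t : B} (h : Rel p t) (o : ι) (w : B)
    (hw : w ∈ unitary B) (hW : p o o * (w - 1) = w - 1) (hW' : (w - 1) * p o o = w - 1) :
    1 + uu p o (w - 1) ∈ unitary B := by
  have hs : p o o * (star w - 1) = star w - 1 := by
    have := congrArg star hW'
    rwa [star_mul, h.st, star_sub, star_one] at this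
  rw [Unitary.mem_iff]
  rw [star_add, star_one, uu_star h, star_sub, star_one]
  constructor
  · have e : (1 + uu p o (star w - 1)) * (1 + uu p o (w - 1)) =
        1 + (uu p o (w - 1) + uu p o (star w - 1) + uu p o (star w - 1) * uu p o (w - 1)) := by
      noncomm_ring
    rw [e, uu_mul h o _ _ hW, ← uu_add, ← uu_add]
    have e2 : w - 1 + (star w - 1) + (star w - 1) * (w - 1) = star w * w - 1 := by noncomm_ring
    rw [e2, (Unitary.mem_iff.1 hw).1, sub_self, uu_zero, add_zero]
  · have e : (1 + uu p o (w - 1)) * (1 + uu p o (star w - 1)) =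
        1 + (uu p o (w - 1) + uu p o (star w - 1) + uu p o (w - 1) * uu p o (star w - 1)) := by
      noncomm_ring
    rw [e, uu_mul h o _ _ hs, ← uu_add, ← uu_add]
    have e2 : w - 1 + (star w - 1) + (w - 1) * (star w - 1) = w * star w - 1 := by noncomm_ring
    rw [e2, (Unitary.mem_iff.1 hw).2, sub_self, uu_zero, add_zero]

theorem uu_v {p : ι → ι → B} {t : B} (h : Rel p t) (o : ι) (W v : B) (hv : p o o * v = v)
    (hW : p o o * W = W) : uu p o W * v = W * v := by
  have htv : t * v = v := by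
    have : p o o * (p o o * v) = v := by rw [hv, hv]
    rw [← mul_assoc, h.mu_self, mul_assoc, hv] at this
    exact this
  rw [uu, Finset.sum_mul, Finset.sum_eq_single o]
  · rw [mul_assoc, hv, hW]
  · intro j _ hj
    rw [mul_assoc]
    have : p o j * v = 0 := by
      rw [← hv, ← mul_assoc, h.mu, if_neg hj, zero_mul]
    rw [this, mul_zero]
  · intro hi; exact absurd (Finset.mem_univ o) hi

theorem uu_norm {p : ι → ι → B} {t : B} (h : Rel p t) (o : ι) (W a : B)
    (ha : ∀ i j, a * p i j = p i j * a) : ‖a * uu p o W‖ ≤ Fintype.card ι * ‖a * W‖ := by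
  rw [uu, Finset.mul_sum]
  refine (norm_sum_le _ _).trans ?_
  rw [← Finset.card_univ, ← nsmul_eq_mul]
  refine Finset.sum_le_card_nsmul _ _ _ fun i _ => ?_
  have e : a * (p i o * W * p o i) = p i o * (a * W) * p o i := by
    rw [← mul_assoc, ← mul_assoc, ha, mul_assoc (p i o)]
  rw [e]
  calc ‖p i o * (a * W) * p o i‖ ≤ ‖p i o‖ * ‖a * W‖ * ‖p o i‖ :=
        (norm_mul_le _ _).trans (mul_le_mul_of_nonneg_right (norm_mul_le _ _) (norm_nonneg _))
    _ ≤ 1 * ‖a * W‖ * 1 := by
        have := h.norm_le i o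
        have := h.norm_le o i
        gcongr
    _ = ‖a * W‖ := by ring


end Pool.Agent.H923R2.FZ.T_VST
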