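import Mathlib
import Pool.Agent.H922R2.OPC.Stubs

set_option autoImplicit false

open MvPolynomial

namespace Pool.Agent.H129R2.ITG

open Pool.Agent.H922R2.OPC

theorem int_trans {R A : Type} [CommRing R] [CommRing A] (F : R →+* A) (y : A) (n : ℕ)
    (s : ℕ → A) (hs : ∀ j < n, F.IsIntegralElem (s j))
    (h : y ^ n + ∑ j ∈ Finset.range n, s j * y ^ j = 0) : F.IsIntegralElem y := by
  let _ := F.toAlgebra
  have hs' : ∀ j : Fin n, s j ∈ integralClosure R A := fun j => hs j j.2
  have hy : IsIntegral (integralClosure R A) y := by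
    refine ⟨Polynomial.X ^ n + ∑ j : Fin n, Polynomial.C (⟨s j, hs' j⟩ : integralClosure R A) *
      Polynomial.X ^ (j : ℕ), Polynomial.monic_X_pow_add (Polynomial.degree_sum_fin_lt _), ?_⟩
    rw [Polynomial.eval₂_add, Polynomial.eval₂_X_pow, Polynomial.eval₂_finsetSum]
    simp only [Polynomial.eval₂_mul, Polynomial.eval₂_C, Polynomial.eval₂_X_pow]
    rw [Finset.sum_range] at h
    exact h
  exact isIntegral_trans (R := R) (A := integralClosure R A) y hy

theorem int_self {R A : Type} [CommRing R] [CommRing A] (F : R →+* A) (y : A) (n : ℕ)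
    (b : ℕ → R) (h : y ^ n + ∑ j ∈ Finset.range n, F (b j) * y ^ j = 0) : F.IsIntegralElem y := by
  refine ⟨Polynomial.X ^ n + ∑ j : Fin n, Polynomial.C (b j) *
      Polynomial.X ^ (j : ℕ), Polynomial.monic_X_pow_add (Polynomial.degree_sum_fin_lt _), ?_⟩
  rw [Polynomial.eval₂_add, Polynomial.eval₂_X_pow, Polynomial.eval₂_finsetSum]
  simp only [Polynomial.eval₂_mul, Polynomial.eval₂_C, Polynomial.eval₂_X_pow]
  rw [Finset.sum_range] at h
  exact h

section
variable {k : Type} [Field k]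

theorem int_aeval (F : B k →+* B k) (hC : ∀ r, F (C r) = C r) (x : B k)
    (hx : F.IsIntegralElem x) (p : Polynomial k) : F.IsIntegralElem (Polynomial.aeval x p) := by
  induction p using Polynomial.induction_on' with
  | add p q hp hq => rw [map_add]; exact hp.add F hq
  | monomial n a =>
    rw [Polynomial.aeval_monomial]
    have h1 : F.IsIntegralElem (algebraMap k (B k) a) := by
      have : algebraMap k (B k) a = F (C a) := by rw [hC]; rfl
      rw [this]
      exact F.isIntegralElem_map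
    have h2 : F.IsIntegralElem (x ^ n) := by
      induction n with
      | zero => rw [pow_zero]; exact F.isIntegralElem_one
      | succ n ih => rw [pow_succ]; exact ih.mul F hx
    exact h1.mul F h2

/-- all elements are integral if `x` and `y` are -/
theorem int_all (F : B k →+* B k) (hC : ∀ r, F (C r) = C r) (hx : F.IsIntegralElem (X 0))
    (hy : F.IsIntegralElem (X 1)) (z : B k) : F.IsIntegralElem z := by
  induction z using MvPolynomial.induction_on with
  | C a => rw [← hC]; exact F.isIntegralElem_map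
  | add p q hp hq => exact hp.add F hq
  | mul_X p i hp =>
    refine hp.mul F ?_
    fin_cases i
    · exact hx
    · exact hy

/-- slices -/
noncomputable def sl (g : B k) (i : ℕ) : Polynomial k :=
  ∑ m ∈ g.support.filter (fun m => m 0 = i), Polynomial.C (g.coeff m) * Polynomial.X ^ (m 1)

theorem aeval_eq {A : Type} [CommRing A] [Algebra k A] (u v : A) (g : B k) :
    aeval ![u, v] g = ∑ m ∈ g.support, algebraMap k A (g.coeff m) * (u ^ (m 0) * v ^ (m 1)) := by
  rw [aeval_def, eval₂_eq']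
  apply Finset.sum_congr rfl
  intro m _
  rw [Fin.prod_univ_two]
  simp

theorem aeval_sl {A : Type} [CommRing A] [Algebra k A] (u v : A) (g : B k) (N : ℕ)
    (hN : ∀ i, N < i → sl g i = 0) :
    aeval ![u, v] g = ∑ i ∈ Finset.range (N + 1), u ^ i * Polynomial.aeval v (sl g i) := by
  classical
  have h1 : ∀ i, Polynomial.aeval v (sl g i) =
      ∑ m ∈ g.support.filter (fun m => m 0 = i), algebraMap k A (g.coeff m) * v ^ (m 1) := by
    intro i
    rw [sl, map_sum]
    simp only [map_mul, Polynomial.aeval_C, map_pow, Polynomial.aeval_X]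
  have h2 : aeval ![u, v] g = ∑ i ∈ g.support.image (fun m => m 0),
      u ^ i * Polynomial.aeval v (sl g i) := by
    rw [aeval_eq, ← Finset.sum_fiberwise_of_maps_to (t := g.support.image (fun m => m 0))
      (g := fun m => m 0) (fun m hm => Finset.mem_image_of_mem _ hm)]
    apply Finset.sum_congr rfl
    intro i _
    rw [h1, Finset.mul_sum]
    apply Finset.sum_congr rfl
    intro m hm
    rw [(Finset.mem_filter.1 hm).2]; ring
  rw [h2]
  have h3 : ∑ i ∈ g.support.image (fun m => m 0), u ^ i * Polynomial.aeval v (sl g i) =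
      ∑ i ∈ g.support.image (fun m => m 0) ∪ Finset.range (N + 1),
        u ^ i * Polynomial.aeval v (sl g i) := by
    apply Finset.sum_subset Finset.subset_union_left
    intro i _ hi
    have : sl g i = 0 := by
      rw [sl, Finset.filter_eq_empty_iff.2, Finset.sum_empty]
      intro m hm hmi
      exact hi (Finset.mem_image.2 ⟨m, hm, hmi⟩)
    rw [this, map_zero, mul_zero]
  rw [h3]
  symm
  apply Finset.sum_subset Finset.subset_union_right
  intro i _ hi
  have : N < i := by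
    by_contra hcon
    exact hi (Finset.mem_range.2 (by omega))
  rw [hN i this, map_zero, mul_zero]

theorem alg_eq (r : k) : algebraMap k (L k) r = HahnSeries.single 0 (Polynomial.C r) := by
  have : algebraMap k (L k) r =
    HahnSeries.ofPowerSeries ℤ (Polynomial k) (algebraMap k (PowerSeries (Polynomial k)) r) := rfl
  rw [this]
  have h2 : algebraMap k (PowerSeries (Polynomial k)) r = PowerSeries.C (Polynomial.C r) := by
    rw [PowerSeries.algebraMap_apply]; rfl
  rw [h2, HahnSeries.ofPowerSeries_C]; rfl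

theorem ev_coeff (n : ℕ) (hn : 0 < n) (φ : L k) (f : B k) (hf : ev n φ f = lam) (g : B k) (i : ℕ) :
    (ev n φ (aeval ![X 0, f] g)).coeff (-((n : ℤ) * i)) = sl g i := by
  have h1 : ev n φ (aeval ![X 0, f] g) = ∑ m ∈ g.support,
      (HahnSeries.single (-((n : ℤ) * (m 0 : ℕ))) (Polynomial.C (g.coeff m) * Polynomial.X ^ (m 1)) : L k) := by
    rw [aeval_eq, map_sum]
    apply Finset.sum_congr rfl
    intro m _
    rw [map_mul, map_mul, map_pow, map_pow, hf, AlgHom.commutes]
    have e0 : ev n φ (X 0) = tp (-(n : ℤ)) := by simp [ev]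
    rw [e0, tp, lam, HahnSeries.single_pow, HahnSeries.single_pow, alg_eq, HahnSeries.single_mul_single, HahnSeries.single_mul_single]
    congr 1
    · simp only [smul_zero, add_zero, zero_add, nsmul_eq_mul]; ring
    · simp
  rw [h1, HahnSeries.coeff_sum, sl, Finset.sum_filter]
  apply Finset.sum_congr rfl
  intro m _
  rw [HahnSeries.coeff_single]
  have hiff : (-((n : ℤ) * i) = -((n : ℤ) * (m 0 : ℕ))) ↔ m 0 = i := by
    constructor
    · intro h
      have h2 : (n : ℤ) * i = (n : ℤ) * (m 0 : ℕ) := by linarith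
      have h3 := mul_left_cancel₀ (by exact_mod_cast hn.ne') h2
      exact_mod_cast h3.symm
    · rintro rfl; rfl
  by_cases h : m 0 = i
  · rw [if_pos h, if_pos (hiff.2 h)]
  · rw [if_neg h, if_neg (fun h' => h (hiff.1 h'))]

/-- lowest coefficient of a product -/
theorem prod_low (hM : S_MUL) (n : ℕ) (s : ℕ → L k) (w : ℤ) (hs : ∀ i < n, Ge w (s i)) :
    Ge ((n : ℤ) * w) (∏ i ∈ Finset.range n, s i) ∧
      (∏ i ∈ Finset.range n, s i).coeff ((n : ℤ) * w) = ∏ i ∈ Finset.range n, (s i).coeff w := by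
  induction n with
  | zero =>
    simp only [Finset.range_zero, Finset.prod_empty, Nat.cast_zero, zero_mul]
    refine ⟨?_, by simp⟩
    intro i hi
    rw [HahnSeries.coeff_one, if_neg (by omega)]
  | succ n ih =>
    obtain ⟨h1, h2⟩ := ih (fun i hi => hs i (by omega))
    obtain ⟨h3, h4⟩ := hM (Polynomial k) ((n : ℤ) * w) w _ _ h1 (hs n (by omega))
    have e : ((n + 1 : ℕ) : ℤ) * w = (n : ℤ) * w + w := by push_cast; ring
    rw [Finset.prod_range_succ, Finset.prod_range_succ, e]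
    exact ⟨h3, by rw [h4, h2]⟩

theorem rot_one (h : L k) : rot 1 h = h := by
  ext i j
  simp [rot]

theorem rot_ge (c : k) (h : L k) (w : ℤ) (hw : Ge w h) : Ge w (rot c h) := by
  intro i hi
  show Polynomial.C (c ^ i) * h.coeff i = 0
  rw [hw i hi, mul_zero]

theorem itg_aux [IsAlgClosed k] [CharZero k] : S_ITG k := by
  intro hM hPRG hROT hEVF hINJ hCHR hMON D c π hc hπ hF hP1 hP2
  obtain ⟨hn1, hζ, _⟩ := D.h₁
  have hinj := hINJ hEVF hMON D.n₁ D.f₁ D.φ₁ D.ζ₁ D.h₁
  have hev := hEVF D.n₁ D.f₁ D.φ₁ D.ζ₁ D.h₁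
  have hchr := hCHR hROT hEVF hMON D.n₁ D.f₁ D.φ₁ D.ζ₁ D.h₁ D.P
  choose g hg using hchr
  -- the conjugates
  obtain ⟨s, hs⟩ : ∃ s : ℕ → L k, s = fun i => rot (D.ζ₁ ^ i) (ev D.n₁ D.φ₁ D.P) := ⟨_, rfl⟩
  obtain ⟨χ, hχ⟩ : ∃ χ : Polynomial (L k), χ =
      ∏ i ∈ Finset.range D.n₁, (Polynomial.X - Polynomial.C (s i)) := ⟨_, rfl⟩
  have hg' : ∀ l, χ.coeff l = ev D.n₁ D.φ₁ (aeval ![X 0, D.f₁] (g l)) := by
    intro l; rw [hχ, hs]; exact hg l
  have hsge : ∀ i < D.n₁, Ge (-(D.n₂ : ℤ)) (s i) := by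
    intro i _; rw [hs]; exact rot_ge _ _ _ hP1
  have hge : ∀ l ≤ D.n₁, Ge (((D.n₁ : ℤ) - l) * (-(D.n₂ : ℤ))) (χ.coeff l) := by
    intro l hl; rw [hχ]; exact hPRG hM D.n₁ s (-(D.n₂ : ℤ)) hsge l hl
  have hmon : χ.Monic := by
    rw [hχ]; exact Polynomial.monic_prod_of_monic _ _ fun i _ => Polynomial.monic_X_sub_C _
  have hdeg : χ.natDegree = D.n₁ := by
    rw [hχ, Polynomial.natDegree_prod_of_monic _ _ fun i _ => Polynomial.monic_X_sub_C _]
    simp
  have hroot : χ.eval (ev D.n₁ D.φ₁ D.P) = 0 := by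
    rw [hχ, Polynomial.eval_prod]
    apply Finset.prod_eq_zero (Finset.mem_range.2 hn1)
    have h0 : s 0 = ev D.n₁ D.φ₁ D.P := by
      rw [hs]
      show rot (D.ζ₁ ^ 0) _ = _
      rw [pow_zero, rot_one]
    rw [h0, Polynomial.eval_sub, Polynomial.eval_X, Polynomial.eval_C, sub_self]
  -- the relation in `B`
  have hrel : ∑ l ∈ Finset.range (D.n₁ + 1), aeval ![X 0, D.f₁] (g l) * D.P ^ l = 0 := by
    apply hinj
    rw [map_sum, map_zero]
    rw [Polynomial.eval_eq_sum_range, hdeg] at hroot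
    rw [← hroot]
    apply Finset.sum_congr rfl
    intro l _
    rw [map_mul, map_pow, hg' l]
  -- vanishing of the slices
  have hsl : ∀ l ≤ D.n₁, ∀ i : ℕ, (D.n₁ - l) * D.n₂ < D.n₁ * i → sl (g l) i = 0 := by
    intro l hl i hi
    rw [← ev_coeff D.n₁ hn1 D.φ₁ D.f₁ hev (g l) i, ← hg' l]
    apply hge l hl
    have : (((D.n₁ - l) * D.n₂ : ℕ) : ℤ) < ((D.n₁ * i : ℕ) : ℤ) := by exact_mod_cast hi
    push_cast [Nat.cast_sub hl] at this
    linarith
  have hn2 : 0 < D.n₂ := D.h₂.1
  have hsl1 : ∀ l ≤ D.n₁, ∀ i : ℕ, D.n₂ < i → sl (g l) i = 0 := by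
    intro l hl i hi
    apply hsl l hl
    calc (D.n₁ - l) * D.n₂ ≤ D.n₁ * D.n₂ := Nat.mul_le_mul_right _ (Nat.sub_le _ _)
      _ < D.n₁ * i := Nat.mul_lt_mul_of_pos_left hi hn1
  have hsl2 : ∀ l ≤ D.n₁, 0 < l → sl (g l) D.n₂ = 0 := by
    intro l hl hl0
    apply hsl l hl
    exact Nat.mul_lt_mul_of_pos_right (by omega) hn2
  obtain ⟨κ, hκ, hsl0⟩ : ∃ κ : k, κ ≠ 0 ∧ sl (g 0) D.n₂ = Polynomial.C κ := by
    have hζ0 : D.ζ₁ ≠ 0 := hζ.ne_zero hn1.ne'
    refine ⟨∏ i ∈ Finset.range D.n₁, (-((D.ζ₁ ^ i) ^ (-(D.n₂ : ℤ)) * π)), ?_, ?_⟩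
    · apply Finset.prod_ne_zero_iff.2
      intro i _
      exact neg_ne_zero.2 (mul_ne_zero (zpow_ne_zero _ (pow_ne_zero _ hζ0)) hπ)
    · have h1 : χ.coeff 0 = ∏ i ∈ Finset.range D.n₁, (-(s i)) := by
        rw [hχ, Polynomial.coeff_zero_eq_eval_zero, Polynomial.eval_prod]
        simp
      have h2 := (prod_low hM D.n₁ (fun i => -(s i)) (-(D.n₂ : ℤ)) (by
        intro i hi j hj
        rw [HahnSeries.coeff_neg, hsge i hi j hj, neg_zero])).2
      rw [← h1, hg' 0] at h2
      have h3 := ev_coeff D.n₁ hn1 D.φ₁ D.f₁ hev (g 0) D.n₂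
      rw [← h3, show (-((D.n₁ : ℤ) * D.n₂)) = (D.n₁ : ℤ) * (-(D.n₂ : ℤ)) by ring, h2, map_prod]
      apply Finset.prod_congr rfl
      intro i _
      rw [HahnSeries.coeff_neg, hs]
      show -(Polynomial.C ((D.ζ₁ ^ i) ^ (-(D.n₂ : ℤ))) * (D.e₁ D.P).coeff (-(D.n₂ : ℤ))) = _
      rw [hP2, map_neg, map_mul]
  -- the ring homomorphism
  have hFC : ∀ r, (D.F : B k →ₐ[k] B k).toRingHom (C r) = C r := by
    intro r
    show D.F (C r) = C r
    rw [← algebraMap_eq, AlgHom.commutes]
  have hFP : D.F (X 0) = D.P := by simp [TC.F, sb]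
  have hFf : D.F (C c⁻¹ * D.f₂) = D.f₁ := by
    rw [map_mul, hF, ← mul_assoc]
    have : D.F (C c⁻¹) = C c⁻¹ := hFC _
    rw [this, ← C_mul, inv_mul_cancel₀ hc, C_1, one_mul]
  have hFa : ∀ p : Polynomial k, D.F (Polynomial.aeval (C c⁻¹ * D.f₂) p) = Polynomial.aeval D.f₁ p := by
    intro p
    rw [← Polynomial.aeval_algHom_apply, hFf]
  have hx : (D.F : B k →ₐ[k] B k).toRingHom.IsIntegralElem (X 0) := by
    apply int_self _ (X 0) D.n₂ (fun i => C κ⁻¹ * ∑ l ∈ Finset.range (D.n₁ + 1),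
      Polynomial.aeval (C c⁻¹ * D.f₂) (sl (g l) i) * X 0 ^ l)
    have e1 : ∀ i, (D.F : B k →ₐ[k] B k).toRingHom (C κ⁻¹ * ∑ l ∈ Finset.range (D.n₁ + 1),
        Polynomial.aeval (C c⁻¹ * D.f₂) (sl (g l) i) * X 0 ^ l) =
        C κ⁻¹ * ∑ l ∈ Finset.range (D.n₁ + 1), Polynomial.aeval D.f₁ (sl (g l) i) * D.P ^ l := by
      intro i
      show D.F _ = _
      rw [map_mul, map_sum]
      have : D.F (C κ⁻¹) = C κ⁻¹ := hFC _
      rw [this]
      congr 1
      apply Finset.sum_congr rfl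
      intro l _
      rw [map_mul, map_pow, hFP, hFa]
    simp only [e1]
    have e2 : C κ * (X 0 ^ D.n₂ + ∑ j ∈ Finset.range D.n₂, (C κ⁻¹ *
        ∑ l ∈ Finset.range (D.n₁ + 1), Polynomial.aeval D.f₁ (sl (g l) j) * D.P ^ l) * X 0 ^ j) =
        (0 : B k) := by
      rw [← hrel]
      have e3 : ∀ l ∈ Finset.range (D.n₁ + 1), aeval ![X 0, D.f₁] (g l) * D.P ^ l =
          ∑ i ∈ Finset.range (D.n₂ + 1), X 0 ^ i * Polynomial.aeval D.f₁ (sl (g l) i) * D.P ^ l := by
        intro l hl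
        rw [aeval_sl (X 0) D.f₁ (g l) D.n₂ (hsl1 l (by have := Finset.mem_range.1 hl; omega)),
          Finset.sum_mul]
      rw [Finset.sum_congr rfl e3, Finset.sum_comm, Finset.sum_range_succ]
      have e4 : ∑ l ∈ Finset.range (D.n₁ + 1), X 0 ^ D.n₂ *
          Polynomial.aeval D.f₁ (sl (g l) D.n₂) * D.P ^ l = C κ * X 0 ^ D.n₂ := by
        rw [Finset.sum_eq_single 0]
        · rw [hsl0, Polynomial.aeval_C, algebraMap_eq]; ring
        · intro l hl hl0
          rw [hsl2 l (by have := Finset.mem_range.1 hl; omega) (Nat.pos_of_ne_zero hl0), map_zero]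
          ring
        · intro h; exact absurd (Finset.mem_range.2 (by omega)) h
      rw [e4, mul_add, add_comm, Finset.mul_sum]
      congr 1
      apply Finset.sum_congr rfl
      intro i _
      have e5 : C κ * (C κ⁻¹ * (∑ l ∈ Finset.range (D.n₁ + 1),
          Polynomial.aeval D.f₁ (sl (g l) i) * D.P ^ l) * X 0 ^ i) =
          (∑ l ∈ Finset.range (D.n₁ + 1), Polynomial.aeval D.f₁ (sl (g l) i) * D.P ^ l) *
            (X 0 ^ i : B k) := by
        rw [← mul_assoc, ← mul_assoc, ← C_mul, mul_inv_cancel₀ hκ, C_1, one_mul]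
      rw [e5, Finset.sum_mul]
      apply Finset.sum_congr rfl
      intro l _
      ring
    rcases mul_eq_zero.1 e2 with h | h
    · exact absurd (C_eq_zero.1 h) hκ
    · exact h
  have hy : (D.F : B k →ₐ[k] B k).toRingHom.IsIntegralElem (X 1) := by
    obtain ⟨a, ha⟩ := hMON D.n₁ D.f₁ D.φ₁ D.ζ₁ D.h₁
    apply int_trans _ (X 1) D.n₁ (fun j => if j = 0 then
      Polynomial.aeval (X 0) (a j) - D.f₁ else Polynomial.aeval (X 0) (a j))
    · intro j _
      have h1 := int_aeval (D.F : B k →ₐ[k] B k).toRingHom hFC (X 0) hx (a j)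
      have h2 : (D.F : B k →ₐ[k] B k).toRingHom.IsIntegralElem D.f₁ := by
        rw [← hFf]
        exact (D.F : B k →ₐ[k] B k).toRingHom.isIntegralElem_map
      show (D.F : B k →ₐ[k] B k).toRingHom.IsIntegralElem (if j = 0 then _ else _)
      split_ifs
      · exact h1.sub _ h2
      · exact h1
    · have e1 : ∑ j ∈ Finset.range D.n₁, (if j = 0 then
          Polynomial.aeval (X 0) (a j) - D.f₁ else Polynomial.aeval (X 0) (a j)) * X 1 ^ j =
          ∑ j ∈ Finset.range D.n₁, Polynomial.aeval (X 0) (a j) * X 1 ^ j - (D.f₁ : B k) := by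
        have e2 : ∀ j ∈ Finset.range D.n₁, (if j = 0 then
          Polynomial.aeval (X 0) (a j) - D.f₁ else Polynomial.aeval (X 0) (a j)) * X 1 ^ j =
          Polynomial.aeval (X 0) (a j) * X 1 ^ j - (if j = 0 then D.f₁ else 0) := by
          intro j _
          split_ifs with h
          · rw [h, pow_zero, mul_one, mul_one]
          · rw [sub_zero]
        rw [Finset.sum_congr rfl e2, Finset.sum_sub_distrib, Finset.sum_ite_eq' (Finset.range D.n₁) 0,
          if_pos (Finset.mem_range.2 hn1)]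
      rw [e1]
      linear_combination (-1 : B k) * ha
  exact int_all _ hFC hx hy

end

/-- ITG -/
theorem itg (k : Type) [Field k] [IsAlgClosed k] [CharZero k] : S_ITG k := itg_aux

end Pool.Agent.H129R2.ITG
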